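import Pool.Agent.Q32.SK.Stm

/-!
# Project SK, job BAP: the base for the affine groups
-/

set_option autoImplicit false

namespace Q272.SK

open Function Q32.SK

section fixed

/-- fixed points of an element of prime order in an invariant finite set -/
theorem fix_modEq {G M : Type} [Group G] [MulAction G M] [DecidableEq M] {ℓ : ℕ}
    [hℓ : Fact ℓ.Prime] (h : G)
    (hh : h ^ ℓ = 1) (D : Finset M) (hD : ∀ x ∈ D, h • x ∈ D) :
    D.card ≡ (D.filter (fun x => h • x = x)).card [MOD ℓ] := by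
  classical
  let f : Function.End D := fun x => ⟨h • x.1, hD x.1 x.2⟩
  have hf : ∀ (n : ℕ) (x : D), (((f ^ n) x : D) : M) = h ^ n • x.1 := by
    intro n
    induction n with
    | zero => intro x; rw [pow_zero, pow_zero, one_smul]; rfl
    | succ n ih =>
      intro x
      rw [pow_succ, pow_succ, mul_smul]
      have h1 : (f ^ n * f) x = (f ^ n) (f x) := rfl
      rw [h1, ih]
  have hf1 : f ^ ℓ ^ 1 = 1 := by
    funext x
    apply Subtype.ext
    rw [pow_one, hf, hh, one_smul]
    rfl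
  have h2 := Equiv.Perm.card_fixedPoints_modEq hf1
  rw [Fintype.card_coe] at h2
  refine h2.trans ?_
  have h3 : Fintype.card (Function.fixedPoints f) = (D.filter (fun x => h • x = x)).card := by
    rw [← Fintype.card_coe]
    refine Fintype.card_congr
      { toFun := fun x => ⟨x.1.1, Finset.mem_filter.2 ⟨x.1.2, congrArg Subtype.val x.2⟩⟩
        invFun := fun x => ⟨⟨x.1, (Finset.mem_filter.1 x.2).1⟩,
          Subtype.ext (Finset.mem_filter.1 x.2).2⟩
        left_inv := fun x => rfl
        right_inv := fun x => rfl }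
  rw [h3]

end fixed

theorem fin_cast (n : ℕ) [NeZero n] (i : Fin n) : ZMod.finEquiv n i = ((i : ℕ) : ZMod n) := by
  cases n with
  | zero => exact i.elim0
  | succ n => exact (ZMod.natCast_zmod_val (n := n + 1) i).symm

section aff

variable {p : ℕ} [hp : Fact p.Prime]

/-- affine form -/
def AF (g : Equiv.Perm (Fin p)) (u : (ZMod p)ˣ) (b : ZMod p) : Prop :=
  ∀ i, ZMod.finEquiv p (g i) = (u : ZMod p) * ZMod.finEquiv p i + b

theorem AF_mul {g g' : Equiv.Perm (Fin p)} {u u' : (ZMod p)ˣ} {b b' : ZMod p} (h : AF g u b)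
    (h' : AF g' u' b') : AF (g * g') (u * u') (u * b' + b) := by
  intro i
  rw [Equiv.Perm.mul_apply, h, h']
  push_cast
  ring

theorem AF_inv {g : Equiv.Perm (Fin p)} {u : (ZMod p)ˣ} {b : ZMod p} (h : AF g u b) :
    AF g⁻¹ u⁻¹ (-((u⁻¹ : (ZMod p)ˣ) : ZMod p) * b) := by
  intro i
  have h1 := h (g⁻¹ i)
  have h0 : g (g⁻¹ i) = i := Equiv.apply_symm_apply g i
  rw [h0] at h1
  rw [h1, mul_add, ← mul_assoc]
  have h2 : ((u⁻¹ : (ZMod p)ˣ) : ZMod p) * (u : ZMod p) = 1 := by
    rw [← Units.val_mul, inv_mul_cancel, Units.val_one]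
  rw [h2]
  ring

/-- translations have order dividing `p` -/
theorem tr_pow {g : Aff p} {b : ZMod p} (h : AF (g : Equiv.Perm (Fin p)) 1 b) : g ^ p = 1 := by
  have h1 : ∀ (n : ℕ) i, ZMod.finEquiv p (((g : Equiv.Perm (Fin p)) ^ n) i) =
      ZMod.finEquiv p i + n * b := by
    intro n
    induction n with
    | zero => intro i; simp
    | succ n ih =>
      intro i
      rw [pow_succ, Equiv.Perm.mul_apply, ih, h]
      push_cast
      ring
  apply Subtype.ext
  ext i
  have h2 := h1 p i
  rw [CharP.cast_eq_zero, zero_mul, add_zero] at h2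
  have h3 := (ZMod.finEquiv p).injective h2
  rw [Subgroup.coe_pow, h3]
  rfl

/-- at most one fixed point -/
theorem aff_two {g : Aff p} {x y : Fin p} (hx : (g : Equiv.Perm (Fin p)) x = x)
    (hy : (g : Equiv.Perm (Fin p)) y = y) (hxy : x ≠ y) : g = 1 := by
  obtain ⟨u, b, h⟩ := g.2
  have h1 := h x
  have h2 := h y
  rw [hx] at h1
  rw [hy] at h2
  have h3 : ((u : ZMod p) - 1) * (ZMod.finEquiv p x - ZMod.finEquiv p y) = 0 := by
    linear_combination h2 - h1
  have h4 : ZMod.finEquiv p x - ZMod.finEquiv p y ≠ 0 := by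
    rw [sub_ne_zero]
    exact fun h5 => hxy ((ZMod.finEquiv p).injective h5)
  have h5 : (u : ZMod p) = 1 := by
    rcases mul_eq_zero.1 h3 with h6 | h6
    · exact sub_eq_zero.1 h6
    · exact absurd h6 h4
  have h6 : b = 0 := by
    rw [h5] at h1
    linear_combination -h1
  apply Subtype.ext
  ext i
  have h7 := h i
  rw [h5, h6, one_mul, add_zero] at h7
  rw [(ZMod.finEquiv p).injective h7]
  rfl

/-- the elements which are not translations have a fixed point -/
theorem aff_fix {g : Aff p} {u : (ZMod p)ˣ} {b : ZMod p} (h : AF (g : Equiv.Perm (Fin p)) u b)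
    (hu : u ≠ 1) : ∃ x, (g : Equiv.Perm (Fin p)) x = x := by
  have h1 : (1 : ZMod p) - u ≠ 0 := by
    rw [sub_ne_zero]
    intro h2
    apply hu
    apply Units.ext
    rw [← h2, Units.val_one]
  refine ⟨(ZMod.finEquiv p).symm (b / (1 - u)), ?_⟩
  apply (ZMod.finEquiv p).injective
  rw [h, RingEquiv.apply_symm_apply]
  field_simp
  ring

/-- the set -/
abbrev MM (p : ℕ) [Fact p.Prime] : Type := Ex (Aff p) (Fin p) ℕ

theorem new_free {g : Aff p} {h : Aff p} {j : ℕ}
    (hh : g • (Ex.new (Fin p) h j : MM p) = Ex.new (Fin p) h j) : g = 1 := by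
  rw [Ex.smul_new] at hh
  have h1 := (Ex.new_inj hh).1
  exact mul_eq_right.1 h1

theorem old_fix {g : Aff p} {x : Fin p}
    (hh : g • (Ex.old ℕ x : MM p) = Ex.old ℕ x) : (g : Equiv.Perm (Fin p)) x = x := by
  rw [Ex.smul_old] at hh
  exact Ex.old_inj hh

theorem fix_old {g : Aff p} {x : MM p} (hg : g ≠ 1) (hx : g • x = x) :
    ∃ y : Fin p, x = Ex.old ℕ y ∧ (g : Equiv.Perm (Fin p)) y = y := by
  rcases Ex.cases x with ⟨y, rfl⟩ | ⟨h, j, rfl⟩
  · exact ⟨y, rfl, old_fix hx⟩
  · exact absurd (new_free hx) hg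

/-- `fre` -/
theorem aff_fre (g : Aff p) (D : Finset (MM p)) (hD : D.card = p) (hinv : ∀ x ∈ D, g • x ∈ D)
    (hg : g ≠ 1) (x : MM p) (hx : g • x = x) : x ∈ D := by
  classical
  obtain ⟨y, rfl, hy⟩ := fix_old hg hx
  by_contra hxD
  have ho : 1 < orderOf g := by
    have h1 : orderOf g ≠ 1 := by rwa [Ne, orderOf_eq_one_iff]
    have h2 : 0 < orderOf g := orderOf_pos g
    omega
  obtain ⟨ℓ, hℓ, hdvd⟩ := Nat.exists_prime_and_dvd (n := orderOf g) (by omega)
  haveI : Fact ℓ.Prime := ⟨hℓ⟩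
  obtain ⟨m, hm⟩ := hdvd
  let h : Aff p := g ^ m
  have hm0 : 0 < m := by
    rcases Nat.eq_zero_or_pos m with h0 | h0
    · rw [h0, mul_zero] at hm; omega
    · exact h0
  have hh1 : h ≠ 1 := by
    intro h1
    have h2 : orderOf g ∣ m := orderOf_dvd_of_pow_eq_one h1
    have h3 := Nat.le_of_dvd hm0 h2
    rw [hm] at h3
    have h4 := hℓ.two_le
    nlinarith
  have hhl : h ^ ℓ = 1 := by
    show (g ^ m) ^ ℓ = 1
    rw [← pow_mul, mul_comm m ℓ, ← hm, pow_orderOf_eq_one]
  have hpowD : ∀ n : ℕ, ∀ z ∈ D, g ^ n • z ∈ D := by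
    intro n
    induction n with
    | zero => intro z hz; rwa [pow_zero, one_smul]
    | succ n ih =>
      intro z hz
      rw [pow_succ, mul_smul]
      exact ih _ (hinv z hz)
  have hpowx : ∀ n : ℕ, ((g ^ n : Aff p) : Equiv.Perm (Fin p)) y = y := by
    intro n
    induction n with
    | zero => rfl
    | succ n ih =>
      rw [pow_succ, Subgroup.coe_mul, Equiv.Perm.mul_apply, hy, ih]
  have hfixh : ∀ z : Fin p, (h : Equiv.Perm (Fin p)) z = z → z = y := by
    intro z hz
    by_contra hzy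
    exact hh1 (aff_two hz (hpowx m) hzy)
  have h1 := fix_modEq h hhl D (hpowD m)
  have h2 : D.filter (fun x => h • x = x) = ∅ := by
    apply Finset.filter_eq_empty_iff.2
    intro z hz hz2
    obtain ⟨w, rfl, hw⟩ := fix_old hh1 hz2
    rw [hfixh w hw] at hz
    exact hxD hz
  rw [h2, hD, Finset.card_empty] at h1
  have h3 : ℓ ∣ p := (Nat.modEq_zero_iff_dvd).1 h1
  have h4 : ℓ = p := (Nat.prime_dvd_prime_iff_eq hℓ hp.out).1 h3
  -- the action on the old points
  have h5 := fix_modEq h hhl (Finset.univ : Finset (Fin p)) (fun x _ => Finset.mem_univ _)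
  have h6 : (Finset.univ : Finset (Fin p)).filter (fun x => h • x = x) = {y} := by
    ext z
    rw [Finset.mem_filter, Finset.mem_singleton]
    constructor
    · rintro ⟨-, hz⟩
      exact hfixh z hz
    · rintro rfl
      exact ⟨Finset.mem_univ _, hpowx m⟩
  rw [h6, Finset.card_singleton, Finset.card_univ, Fintype.card_fin, h4] at h5
  have h7 : p ∣ 1 := by
    have h8 : p ≡ 0 [MOD p] := by simp [Nat.ModEq]
    exact (Nat.modEq_zero_iff_dvd).1 (h5.symm.trans h8)
  exact hp.out.one_lt.ne' (Nat.dvd_one.1 h7)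

/-- `shp` -/
theorem aff_shp (g : Aff p) (a : Fin p → MM p) (ha : Injective a) (h : ∀ i, g • a i = a i) :
    g = 1 := by
  by_contra hg
  have h1 : 1 < p := hp.out.one_lt
  obtain ⟨x, hx, hx2⟩ := fix_old hg (h ⟨0, by omega⟩)
  obtain ⟨y, hy, hy2⟩ := fix_old hg (h ⟨1, h1⟩)
  apply hg
  apply aff_two hx2 hy2
  rintro rfl
  have h2 := ha (hx.trans hy.symm)
  exact absurd (congrArg Fin.val h2) (by simp)

/-- case (ii-b): the stabiliser is not trivial and contains no translation -/
theorem ord_b (fi : S_FI) (e : Fin p → MM p) (he : Injective e)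
    (h2 : ¬ ∃ h : Aff p, h ^ p = 1 ∧ h ≠ 1 ∧ ∀ i, ∃ j, h • e i = e j)
    (h3 : ∃ h : Aff p, h ≠ 1 ∧ ∀ i, ∃ j, h • e i = e j) :
    ∃ π₀ : Equiv.Perm (Fin p), ∀ (g : Aff p) (π : Equiv.Perm (Fin p)),
      (∀ i, g • e (π₀ i) = e (π₀ (π i))) → π ∈ Aff p := by
  classical
  -- the stabiliser
  let H : Subgroup (Aff p) :=
    { carrier := {g | ∀ i, ∃ j, g • e i = e j}
      mul_mem' := by
        intro g g' hg hg' i
        obtain ⟨j, hj⟩ := hg' i
        obtain ⟨l, hl⟩ := hg j
        exact ⟨l, by rw [mul_smul, hj, hl]⟩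
      one_mem' := fun i => ⟨i, one_smul _ _⟩
      inv_mem' := by
        intro g hg
        choose f hf using hg
        have hinj : Injective f := by
          intro i j hij
          have h4 : g • e i = g • e j := by rw [hf i, hf j, hij]
          exact he (smul_left_cancel g h4)
        have hsurj := Finite.injective_iff_surjective.1 hinj
        intro i
        obtain ⟨j, rfl⟩ := hsurj i
        exact ⟨j, by rw [inv_smul_eq_iff, hf]⟩ }
  have hHmem : ∀ g : Aff p, g ∈ H ↔ ∀ i, ∃ j, g • e i = e j := fun g => Iff.rfl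
  -- translations in H are trivial
  have htr : ∀ g ∈ H, ∀ b, AF (g : Equiv.Perm (Fin p)) 1 b → g = 1 := by
    intro g hg b hb
    by_contra hg1
    exact h2 ⟨g, tr_pow hb, hg1, hg⟩
  -- H is commutative
  have hcomm : ∀ g ∈ H, ∀ g' ∈ H, g * g' = g' * g := by
    intro g hg g' hg'
    obtain ⟨u, b, hu⟩ := g.2
    obtain ⟨u', b', hu'⟩ := g'.2
    have h4 : AF ((g * g' * g⁻¹ * g'⁻¹ : Aff p) : Equiv.Perm (Fin p)) 1
        ((u * u' * u⁻¹ : (ZMod p)ˣ) * (-((u'⁻¹ : (ZMod p)ˣ) : ZMod p) * b') +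
          ((u * u' : (ZMod p)ˣ) * (-((u⁻¹ : (ZMod p)ˣ) : ZMod p) * b) + (u * b' + b))) := by
      have h5 := AF_mul (AF_mul (AF_mul (g := (g : Equiv.Perm (Fin p)))
        (g' := (g' : Equiv.Perm (Fin p))) hu hu') (AF_inv hu)) (AF_inv hu')
      have h6 : u * u' * u⁻¹ * u'⁻¹ = 1 := by
        rw [mul_comm u u', mul_assoc u', mul_inv_cancel, mul_one, mul_inv_cancel]
      rw [h6] at h5
      exact h5
    have h7 := htr _ (mul_mem (mul_mem (mul_mem hg hg') (inv_mem hg)) (inv_mem hg')) _ h4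
    rw [mul_inv_eq_one, mul_inv_eq_iff_eq_mul] at h7
    exact h7
  -- the fixed point
  obtain ⟨h, hh1, hhH⟩ := h3
  obtain ⟨u, b, hu⟩ := h.2
  have hu1 : u ≠ 1 := by
    rintro rfl
    exact hh1 (htr h hhH b hu)
  obtain ⟨x0, hx0⟩ := aff_fix (g := h) hu hu1
  have hfix : ∀ g ∈ H, (g : Equiv.Perm (Fin p)) x0 = x0 := by
    intro g hg
    by_contra hne
    apply hh1
    apply aff_two (x := (g : Equiv.Perm (Fin p)) x0) (y := x0) _ hx0 hne
    have h4 := hcomm h hhH g hg
    have h5 : (h : Equiv.Perm (Fin p)) ((g : Equiv.Perm (Fin p)) x0) =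
        (g : Equiv.Perm (Fin p)) ((h : Equiv.Perm (Fin p)) x0) := by
      have h6 := congrArg (fun t : Aff p => (t : Equiv.Perm (Fin p)) x0) h4
      exact h6
    rw [h5, hx0]
  -- the fixed point is in the range of `e`
  obtain ⟨i1, hi1⟩ : ∃ i1, e i1 = Ex.old ℕ x0 := by
    have h4 : (Ex.old ℕ x0 : MM p) ∈ Finset.univ.image e := by
      apply aff_fre h (Finset.univ.image e)
      · rw [Finset.card_image_of_injective _ he, Finset.card_univ, Fintype.card_fin]
      · intro x hx
        obtain ⟨i, -, rfl⟩ := Finset.mem_image.1 hx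
        obtain ⟨j, hj⟩ := hhH i
        rw [hj]
        exact Finset.mem_image_of_mem _ (Finset.mem_univ _)
      · exact hh1
      · rw [Ex.smul_old]
        congr 1
    obtain ⟨i, -, hi⟩ := Finset.mem_image.1 h4
    exact ⟨i, hi⟩
  -- the second action
  have hτ : ∀ (g : H) (i : Fin p), ∃ j, (g : Aff p) • e i = e j := fun g i => g.2 i
  choose τ hτ using hτ
  have hτ1 : ∀ (g : H) (i : Fin p), i ≠ i1 → τ g i ≠ i1 := by
    intro g i hi h4
    apply hi
    have h5 := hτ g i
    rw [h4, hi1] at h5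
    have h6 : (g : Aff p) • (Ex.old ℕ x0 : MM p) = Ex.old ℕ x0 := by
      rw [Ex.smul_old]
      congr 1
      exact hfix g g.2
    have h7 : e i = e i1 := by
      rw [hi1]
      exact smul_left_cancel (g : Aff p) (h5.trans h6.symm)
    exact he h7
  let X1 : Type := {x : Fin p // x ≠ x0}
  let Y1 : Type := {i : Fin p // i ≠ i1}
  letI actX : MulAction H X1 :=
    { smul := fun g x => ⟨((g : Aff p) : Equiv.Perm (Fin p)) x.1, fun h4 => x.2 (by
        have h5 := hfix g g.2
        exact ((g : Aff p) : Equiv.Perm (Fin p)).injective (h4.trans h5.symm))⟩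
      one_smul := fun x => rfl
      mul_smul := fun g g' x => rfl }
  letI actY : MulAction H Y1 :=
    { smul := fun g i => ⟨τ g i.1, hτ1 g i.1 i.2⟩
      one_smul := fun i => by
        apply Subtype.ext
        apply he
        show e (τ 1 i.1) = e i.1
        rw [← hτ]
        exact one_smul _ _
      mul_smul := fun g g' i => by
        apply Subtype.ext
        apply he
        show e (τ (g * g') i.1) = e (τ g (τ g' i.1))
        rw [← hτ, ← hτ, ← hτ]
        exact mul_smul _ _ _ }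
  have hfX : ∀ (g : H) (x : X1), g • x = x → g = 1 := by
    intro g x hgx
    apply Subtype.ext
    apply aff_two (x := x.1) (y := x0) _ (hfix g g.2) x.2
    exact congrArg Subtype.val hgx
  have hfY : ∀ (g : H) (i : Y1), g • i = i → g = 1 := by
    intro g i hgi
    apply Subtype.ext
    by_contra hg1
    have h4 : τ g i.1 = i.1 := congrArg Subtype.val hgi
    have h5 := hτ g i.1
    rw [h4] at h5
    obtain ⟨y, hy, hy2⟩ := fix_old hg1 h5
    apply hg1
    apply aff_two hy2 (hfix g g.2)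
    rintro rfl
    exact i.2 (he (hy.trans hi1.symm))
  haveI : Finite X1 := by
    show Finite {x : Fin p // x ≠ x0}
    infer_instance
  haveI : Finite Y1 := by
    show Finite {x : Fin p // x ≠ i1}
    infer_instance
  have hcard : Nat.card X1 = Nat.card Y1 := by
    show Nat.card {x : Fin p // x ≠ x0} = Nat.card {x : Fin p // x ≠ i1}
    rw [Nat.card_eq_fintype_card, Nat.card_eq_fintype_card, Fintype.card_subtype_compl,
      Fintype.card_subtype_compl]
    simp
  obtain ⟨ψ, hψ⟩ := fi H X1 Y1 hfX hfY hcard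
  let q : Fin p → Fin p := fun x => if hx : x = x0 then i1 else (ψ ⟨x, hx⟩).1
  have q0 : q x0 = i1 := dif_pos rfl
  have q1 : ∀ x (hx : x ≠ x0), q x = (ψ ⟨x, hx⟩).1 := fun x hx => dif_neg hx
  have hq : Injective q := by
    intro x y hxy
    by_cases hx : x = x0
    · subst hx
      by_cases hy : y = x
      · exact hy.symm
      · exfalso
        rw [q0, q1 y hy] at hxy
        exact (ψ ⟨y, hy⟩).2 hxy.symm
    · by_cases hy : y = x0
      · subst hy
        exfalso
        rw [q0, q1 x hx] at hxy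
        exact (ψ ⟨x, hx⟩).2 hxy
      · rw [q1 x hx, q1 y hy] at hxy
        have h4 := ψ.injective (Subtype.ext hxy)
        exact congrArg Subtype.val h4
  refine ⟨Equiv.ofBijective q (Finite.injective_iff_bijective.1 hq), ?_⟩
  intro g π hgπ
  have hgπ' : ∀ i, g • e (q i) = e (q (π i)) := hgπ
  have hgH : g ∈ H := by
    intro j
    obtain ⟨i, rfl⟩ := Finite.injective_iff_surjective.1 hq j
    exact ⟨_, hgπ' i⟩
  have hπ : π = (g : Equiv.Perm (Fin p)) := by
    ext x
    congr 1
    apply hq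
    apply he
    rw [← hgπ' x]
    by_cases hx : x = x0
    · subst hx
      rw [hfix g hgH, q0, hi1, Ex.smul_old]
      congr 1
      exact hfix g hgH
    · have h4 := hψ ⟨g, hgH⟩ ⟨x, hx⟩
      have hgx : (g : Equiv.Perm (Fin p)) x ≠ x0 := by
        intro h5
        rw [← hfix g hgH] at h5
        exact hx ((g : Equiv.Perm (Fin p)).injective h5)
      rw [q1 x hx, q1 _ hgx]
      have h5 : (ψ ⟨(g : Equiv.Perm (Fin p)) x, hgx⟩).1 = τ ⟨g, hgH⟩ (ψ ⟨x, hx⟩).1 :=
        congrArg Subtype.val h4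
      rw [h5, ← hτ]
  rw [hπ]
  exact g.2

/-- orderings of sets -/
theorem ord_ex (fi : S_FI) (e : Fin p → MM p) (he : Injective e) :
    ∃ π₀ : Equiv.Perm (Fin p), ∀ (g : Aff p) (π : Equiv.Perm (Fin p)),
      (∀ i, g • e (π₀ i) = e (π₀ (π i))) → π ∈ Aff p := by
  classical
  by_cases h1 : ∀ i, ∃ x, e i = Ex.old ℕ x
  · choose f hf using h1
    have hfinj : Injective f := by
      intro i j hij
      apply he
      rw [hf i, hf j, hij]
    let F : Equiv.Perm (Fin p) := Equiv.ofBijective f (Finite.injective_iff_bijective.1 hfinj)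
    have hF : ∀ i, e (F⁻¹ i) = Ex.old ℕ i := by
      intro i
      rw [hf]
      congr 1
      exact Equiv.apply_symm_apply F i
    refine ⟨F⁻¹, ?_⟩
    intro g π hgπ
    have hπ : π = (g : Equiv.Perm (Fin p)) := by
      ext i
      congr 1
      have h2 := hgπ i
      rw [hF, hF, Ex.smul_old] at h2
      exact (Ex.old_inj h2).symm
    rw [hπ]
    exact g.2
  · push Not at h1
    obtain ⟨i0, hi0⟩ := h1
    obtain ⟨h0, j0, hnew⟩ : ∃ h j, e i0 = Ex.new (Fin p) h j := by
      rcases Ex.cases (e i0) with ⟨x, hx⟩ | h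
      · exact absurd hx (hi0 x)
      · exact h
    by_cases h2 : ∃ h : Aff p, h ^ p = 1 ∧ h ≠ 1 ∧ ∀ i, ∃ j, h • e i = e j
    · obtain ⟨h, hhp, hh1, hinv⟩ := h2
      have hord : orderOf h = p := orderOf_eq_prime hhp hh1
      have hpow : ∀ n : ℕ, ∃ j, h ^ n • e i0 = e j := by
        intro n
        induction n with
        | zero => exact ⟨i0, by rw [pow_zero, one_smul]⟩
        | succ n ih =>
          obtain ⟨j, hj⟩ := ih
          obtain ⟨l, hl⟩ := hinv j
          exact ⟨l, by rw [pow_succ', mul_smul, hj, hl]⟩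
      choose q' hq' using hpow
      let q : Fin p → Fin p := fun l => q' l
      have hcancel : ∀ a b : Aff p, a • e i0 = b • e i0 → a = b := by
        intro a b hab
        have h3 : (b⁻¹ * a) • e i0 = e i0 := by
          rw [mul_smul, hab, inv_smul_smul]
        rw [hnew] at h3
        have h4 := new_free h3
        rw [inv_mul_eq_one] at h4
        exact h4.symm
      have hq : Injective q := by
        intro l m hlm
        have h3 : h ^ (l : ℕ) • e i0 = h ^ (m : ℕ) • e i0 := by
          rw [hq', hq']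
          exact congrArg e hlm
        have h4 := hcancel _ _ h3
        have h5 := pow_injOn_Iio_orderOf (x := h) (by rw [Set.mem_Iio, hord]; exact l.2)
          (by rw [Set.mem_Iio, hord]; exact m.2) h4
        exact Fin.ext h5
      refine ⟨Equiv.ofBijective q (Finite.injective_iff_bijective.1 hq), ?_⟩
      intro g π hgπ
      have hgπ' : ∀ i : Fin p, g * h ^ (i : ℕ) = h ^ ((π i : Fin p) : ℕ) := by
        intro i
        apply hcancel
        rw [mul_smul, hq', hq']
        exact hgπ i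
      have hp0 : 0 < p := hp.out.pos
      have hg0 : g = h ^ ((π ⟨0, hp0⟩ : Fin p) : ℕ) := by
        have h3 := hgπ' ⟨0, hp0⟩
        simpa using h3
      refine ⟨1, ZMod.finEquiv p (π ⟨0, hp0⟩), ?_⟩
      have hcast : ∀ i : Fin p, ZMod.finEquiv p i = ((i : ℕ) : ZMod p) := fin_cast p
      intro i
      rw [hcast, hcast, hcast, Units.val_one, one_mul]
      have h3 := hgπ' i
      rw [hg0, ← pow_add, pow_inj_mod, hord] at h3
      have h4 : (((π ⟨0, hp0⟩ : Fin p) : ℕ) + (i : ℕ) : ℕ) ≡ ((π i : Fin p) : ℕ) [MOD p] := h3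
      have h5 := (ZMod.natCast_eq_natCast_iff _ _ _).2 h4
      push_cast at h5
      rw [← h5]
      ring
    · by_cases h3 : ∃ h : Aff p, h ≠ 1 ∧ ∀ i, ∃ j, h • e i = e j
      · exact ord_b fi e he h2 h3
      · refine ⟨1, ?_⟩
        intro g π hgπ
        have hgπ' : ∀ i, g • e i = e (π i) := hgπ
        have hg : g = 1 := by
          by_contra hg
          exact h3 ⟨g, hg, fun i => ⟨_, hgπ' i⟩⟩
        have hπ : π = 1 := by
          ext i
          congr 1
          apply he
          rw [← hgπ' i, hg, one_smul]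
          rfl
        rw [hπ]
        exact one_mem _

end aff

theorem bap : S_BAP := by
  intro htx fi p hp
  obtain ⟨r, hr1, hr2, -⟩ := htx p (Aff p) (Aff p) (MM p) ∅ (fun _ => False) (by simp) (by simp)
    (by simp) (by simp) (by simp) (by simp) (fun e _ he => ord_ex fi e he)
  haveI : Countable (MM p) := inferInstanceAs (Countable (Fin p ⊕ (Aff p × ℕ)))
  haveI : Infinite (MM p) := inferInstanceAs (Infinite (Fin p ⊕ (Aff p × ℕ)))
  have hgood : Good p (HT p (Aff p)) (Aff p) (MM p) r :=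
    { cls := hr1
      inv := hr2
      shp := aff_shp
      fre := aff_fre }
  exact ⟨{ G := Aff p, M := MM p, r := r, good := hgood }, MonoidHom.id _, Ex.old ℕ,
    fun x y h => Ex.old_inj h, fun g i => rfl⟩

end Q272.SK
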