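import Pool.Agent.Q32.SK.Stm

/-!
# Project SK, job FNB: the second result
-/

set_option autoImplicit false

namespace Q272.SK

open Function Q32.SK

section bf

variable {I : Type} {ar : I → ℕ} {X Y : Type}

/-- finite isomorphisms -/
structure PI (r : Str I ar X) (s : Str I ar Y) (p : Set (X × Y)) : Prop where
  fin : p.Finite
  bij : ∀ q ∈ p, ∀ q' ∈ p, (q.1 = q'.1 ↔ q.2 = q'.2)
  iso : ∀ (i : I) (v : Fin (ar i) → X) (v' : Fin (ar i) → Y), (∀ l, (v l, v' l) ∈ p) →
    (r i v ↔ s i v')

theorem PI.symm {r : Str I ar X} {s : Str I ar Y} {p : Set (X × Y)} (h : PI r s p) :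
    PI s r (Prod.swap '' p) := by
  refine ⟨h.fin.image _, ?_, ?_⟩
  · rintro _ ⟨q, hq, rfl⟩ _ ⟨q', hq', rfl⟩
    exact (h.bij q hq q' hq').symm
  · intro i v v' hv
    apply (h.iso i v' v _).symm
    intro l
    obtain ⟨q, hq, hq2⟩ := hv l
    have : q = (v' l, v l) := by
      rw [← Prod.swap_swap q, hq2]; rfl
    rw [← this]; exact hq

/-- the extension property -/
def PE (𝒞 : Cls I ar) (Y : Type) (s : Str I ar Y) : Prop :=
  ∀ (C : Set Y), C.Finite → ∀ D : Str I ar (Option C), 𝒞.K (Option C) D →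
    D.pull some = s.pull (Subtype.val : C → Y) →
    ∃ y : Y, y ∉ C ∧ s.pull (oval C y) = D

/-- extension forward -/
theorem PI.ext {𝒞 : Cls I ar} {r : Str I ar X} {s : Str I ar Y} {p : Set (X × Y)} (h : PI r s p)
    (hr : 𝒞.K X r) (hs : PE 𝒞 Y s) (x : X) :
    ∃ q, p ⊆ q ∧ PI r s q ∧ ∃ y, (x, y) ∈ q := by
  classical
  by_cases hx : ∃ y, (x, y) ∈ p
  · exact ⟨p, subset_rfl, h, hx⟩
  · let C : Set Y := Prod.snd '' p
    have hC : C.Finite := h.fin.image _
    have hβ : ∀ c : C, ∃ z : X, (z, c.1) ∈ p := by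
      rintro ⟨c, q, hq, rfl⟩
      exact ⟨q.1, hq⟩
    choose β hβ using hβ
    let β' : Option C → X := fun o => o.elim x β
    have hβ' : Injective β' := by
      intro o o' hoo
      cases o with
      | none =>
        cases o' with
        | none => rfl
        | some c =>
          exfalso
          have h1 : x = β c := hoo
          exact hx ⟨c.1, by rw [h1]; exact hβ c⟩
      | some c =>
        cases o' with
        | none =>
          exfalso
          have h1 : β c = x := hoo
          exact hx ⟨c.1, by rw [← h1]; exact hβ c⟩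
        | some c' =>
          have h1 : β c = β c' := hoo
          have h2 := (h.bij _ (hβ c) _ (hβ c')).1 h1
          rw [Subtype.ext h2]
    obtain ⟨y, hyC, hy⟩ := hs C hC (r.pull β') (𝒞.pull _ _ _ _ hβ' hr) (by
      funext i v
      exact propext (h.iso i (fun l => β (v l)) (fun l => (v l).1) (fun l => hβ (v l))))
    refine ⟨insert (x, y) p, Set.subset_insert _ _, ⟨h.fin.insert _, ?_, ?_⟩, y,
      Set.mem_insert _ _⟩
    · have key : ∀ q ∈ p, ¬ x = q.1 ∧ ¬ y = q.2 := by
        intro q hq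
        refine ⟨fun h1 => hx ⟨q.2, by rw [h1]; exact hq⟩, fun h1 => hyC ⟨q, hq, h1.symm⟩⟩
      rintro q (rfl | hq) q' (rfl | hq')
      · simp
      · exact iff_of_false (key q' hq').1 (key q' hq').2
      · exact iff_of_false (fun h1 => (key q hq).1 h1.symm) (fun h1 => (key q hq).2 h1.symm)
      · exact h.bij q hq q' hq'
    · intro i v v' hv
      let w : Fin (ar i) → Option C := fun l => if hl : v' l ∈ C then some ⟨v' l, hl⟩ else none
      have hw : ∀ l, β' (w l) = v l ∧ oval C y (w l) = v' l := by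
        intro l
        rcases hv l with h1 | h1
        · have h2 : v l = x := congrArg Prod.fst h1
          have h3 : v' l = y := congrArg Prod.snd h1
          have h4 : w l = none := by
            apply dif_neg
            rw [h3]; exact hyC
          rw [h4, h2, h3]
          exact ⟨rfl, rfl⟩
        · have h3 : v' l ∈ C := ⟨_, h1, rfl⟩
          have h4 : w l = some ⟨v' l, h3⟩ := dif_pos h3
          rw [h4]
          refine ⟨?_, rfl⟩
          exact (h.bij _ (hβ ⟨v' l, h3⟩) _ h1).2 rfl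
      have h1 := congrFun (congrFun hy i) w
      have h2 : s i v' = s.pull (oval C y) i w := by
        show s i v' = s i (fun l => oval C y (w l))
        congr 1
        funext l
        exact (hw l).2.symm
      have h3 : r i v = r.pull β' i w := by
        show r i v = r i (fun l => β' (w l))
        congr 1
        funext l
        exact (hw l).1.symm
      rw [h2, h3, h1]

/-- extension backward -/
theorem PI.extb {𝒞 : Cls I ar} {r : Str I ar X} {s : Str I ar Y} {p : Set (X × Y)} (h : PI r s p)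
    (hs : 𝒞.K Y s) (hr : PE 𝒞 X r) (y : Y) :
    ∃ q, p ⊆ q ∧ PI r s q ∧ ∃ x, (x, y) ∈ q := by
  obtain ⟨q, h1, h2, x, h3⟩ := h.symm.ext hs hr y
  refine ⟨Prod.swap '' q, ?_, h2.symm, x, ⟨(y, x), h3, rfl⟩⟩
  intro z hz
  exact ⟨z.swap, h1 ⟨z, hz, rfl⟩, Prod.swap_swap z⟩

/-- a finite part is covered -/
theorem PI.fext {𝒞 : Cls I ar} {r : Str I ar X} {s : Str I ar Y} {p : Set (X × Y)} (h : PI r s p)
    (hr : 𝒞.K X r) (hs : PE 𝒞 Y s) (F : Finset X) :
    ∃ q, p ⊆ q ∧ PI r s q ∧ ∀ x ∈ F, ∃ y, (x, y) ∈ q := by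
  classical
  induction F using Finset.induction_on with
  | empty => exact ⟨p, subset_rfl, h, by simp⟩
  | insert a F ha ih =>
    obtain ⟨q, h1, h2, h3⟩ := ih
    obtain ⟨q', h4, h5, y, h6⟩ := h2.ext hr hs a
    refine ⟨q', h1.trans h4, h5, ?_⟩
    intro x hx
    rcases Finset.mem_insert.1 hx with rfl | hx
    · exact ⟨y, h6⟩
    · obtain ⟨z, hz⟩ := h3 x hx
      exact ⟨z, h4 hz⟩

/-- back and forth -/
theorem PI.bf {𝒞 : Cls I ar} [Countable X] [Countable Y] [Nonempty X] [Nonempty Y]
    {r : Str I ar X} {s : Str I ar Y} {p : Set (X × Y)} (h : PI r s p)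
    (hr : 𝒞.K X r) (hs : 𝒞.K Y s) (hr' : PE 𝒞 X r) (hs' : PE 𝒞 Y s) :
    ∃ σ : X ≃ Y, (∀ q ∈ p, σ q.1 = q.2) ∧ ∀ (i : I) (v : Fin (ar i) → X),
      (s i (fun l => σ (v l)) ↔ r i v) := by
  obtain ⟨ex, hex⟩ := exists_surjective_nat X
  obtain ⟨ey, hey⟩ := exists_surjective_nat Y
  have step : ∀ (n : ℕ) (p : {p // PI r s p}), ∃ q : {p // PI r s p}, p.1 ⊆ q.1 ∧
      (∃ y, (ex n, y) ∈ q.1) ∧ ∃ x, (x, ey n) ∈ q.1 := by
    rintro n ⟨p, hp⟩
    obtain ⟨q, h1, h2, y, h3⟩ := hp.ext hr hs' (ex n)
    obtain ⟨q', h4, h5, x, h6⟩ := h2.extb hs hr' (ey n)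
    exact ⟨⟨q', h5⟩, h1.trans h4, ⟨y, h4 h3⟩, ⟨x, h6⟩⟩
  choose st hst1 hst2 hst3 using step
  let P : ℕ → {p // PI r s p} := fun n => Nat.rec ⟨p, h⟩ (fun n q => st n q) n
  have hP : ∀ n, P (n + 1) = st n (P n) := fun n => rfl
  have hmono : Monotone (fun n => (P n).1) := by
    apply monotone_nat_of_le_succ
    intro n
    show (P n).1 ⊆ (P (n + 1)).1
    rw [hP]
    exact hst1 n (P n)
  have hX : ∀ x, ∃ y, ∃ n, (x, y) ∈ (P n).1 := by
    intro x
    obtain ⟨n, rfl⟩ := hex x
    obtain ⟨y, hy⟩ := hst2 n (P n)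
    exact ⟨y, n + 1, hy⟩
  have hY : ∀ y, ∃ x, ∃ n, (x, y) ∈ (P n).1 := by
    intro y
    obtain ⟨n, rfl⟩ := hey y
    obtain ⟨x, hx⟩ := hst3 n (P n)
    exact ⟨x, n + 1, hx⟩
  have hcomp : ∀ q q' : X × Y, (∃ n, q ∈ (P n).1) → (∃ n, q' ∈ (P n).1) →
      (q.1 = q'.1 ↔ q.2 = q'.2) := by
    rintro q q' ⟨n, hn⟩ ⟨m, hm⟩
    exact (P (max n m)).2.bij q (hmono (le_max_left n m) hn) q' (hmono (le_max_right n m) hm)
  choose σ hσ using hX
  have hbij : Bijective σ := by
    refine ⟨?_, ?_⟩
    · intro x x' hxx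
      exact (hcomp (x, σ x) (x', σ x') (hσ x) (hσ x')).2 hxx
    · intro y
      obtain ⟨x, hx⟩ := hY y
      exact ⟨x, (hcomp (x, σ x) (x, y) (hσ x) hx).1 rfl⟩
  refine ⟨Equiv.ofBijective σ hbij, ?_, ?_⟩
  · intro q hq
    exact (hcomp (q.1, σ q.1) q (hσ q.1) ⟨0, hq⟩).1 rfl
  · intro i v
    have h1 : ∀ l, ∃ n, (v l, σ (v l)) ∈ (P n).1 := fun l => hσ (v l)
    choose f hf using h1
    exact ((P (Finset.univ.sup f)).2.iso i v (fun l => σ (v l))
      (fun l => hmono (Finset.le_sup (Finset.mem_univ l)) (hf l))).symm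

end bf

/-! ### the signature of `C4` -/

section c4

/-- the arity function -/
abbrev ar4 : Unit ⊕ Unit → ℕ := Sum.elim (fun _ => 4) (fun _ => 2)

/-- the structure of a pair of relations -/
def toS {X : Type} (R : (Fin 4 → X) → Prop) (E : X → X → Prop) : Str (Unit ⊕ Unit) ar4 X :=
  Str.mk2 (ar := fun _ => 4) (ar' := fun _ => 2) (fun _ v => R v) (fun _ v => E (v 0) (v 1))

theorem two_eq {X : Type} (v : Fin 2 → X) : ![v 0, v 1] = v := by
  funext l
  fin_cases l <;> rfl

theorem toS_self {X : Type} (r : Str (Unit ⊕ Unit) ar4 X) :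
    toS (fun a => r.fst () a) (fun x y => r.snd () ![x, y]) = r := by
  funext i v
  rcases i with i | i
  · rfl
  · exact congrArg (r (Sum.inr ())) (two_eq v)

theorem pullE {X Y : Type} (r : Str (Unit ⊕ Unit) ar4 Y) (f : X → Y) (x y : X) :
    r.pull f (Sum.inr ()) (![x, y] : Fin 2 → X) = r (Sum.inr ()) (![f x, f y] : Fin 2 → Y) := by
  have h : (fun l => f ((![x, y] : Fin 2 → X) l)) = ![f x, f y] := by
    funext l
    fin_cases l <;> rfl
  exact congrArg (r (Sum.inr ())) h

theorem evE {X : Type} (r : Str (Unit ⊕ Unit) ar4 X) (v : Fin 2 → X) :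
    r (Sum.inr ()) v = r (Sum.inr ()) (![v 0, v 1] : Fin 2 → X) :=
  (congrArg (r (Sum.inr ())) (two_eq v)).symm

theorem t4_iff {X : Type} (R : (Fin 4 → X) → Prop) :
    (HT 4 (alternatingGroup (Fin 4))).K X (fun _ v => R v) ↔ IsT4 R := by
  constructor
  · rintro ⟨h1, h2, h3'⟩
    refine ⟨h1, ?_⟩
    intro a ha π
    obtain ⟨π0, h4⟩ := h2 a ha
    have h3 : ∀ (a : Fin 4 → X) (π : Equiv.Perm (Fin 4)), R a →
      (R (fun i => a (π i)) ↔ π ∈ alternatingGroup (Fin 4)) := h3'
    have h5 : ∀ σ : Equiv.Perm (Fin 4), R (fun i => a (σ i)) ↔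
        Equiv.Perm.sign σ = Equiv.Perm.sign π0 := by
      intro σ
      have h6 := h3 (fun i => a (π0 i)) (π0⁻¹ * σ) h4
      have h7 : (fun i => a (π0 ((π0⁻¹ * σ) i))) = fun i => a (σ i) := by
        funext i
        rw [Equiv.Perm.mul_apply]
        congr 1
        exact Equiv.apply_symm_apply π0 (σ i)
      rw [h7, Equiv.Perm.mem_alternatingGroup, map_mul, map_inv, inv_mul_eq_one] at h6
      rw [h6]
      exact eq_comm
    have h6 : R a ↔ 1 = Equiv.Perm.sign π0 := by
      have := h5 1
      rw [map_one] at this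
      exact this
    rw [h5 π, h6]
    rcases Int.units_eq_one_or (Equiv.Perm.sign π0) with h7 | h7 <;>
    rcases Int.units_eq_one_or (Equiv.Perm.sign π) with h8 | h8 <;>
    rw [h7, h8] <;> decide
  · rintro ⟨h1, h2⟩
    refine ⟨h1, ?_, ?_⟩
    · intro a ha
      by_cases h : R a
      · exact ⟨1, h⟩
      · refine ⟨Equiv.swap 0 1, ?_⟩
        show R _
        rw [h2 a ha]
        refine iff_of_false h ?_
        rw [Equiv.Perm.sign_swap (by decide)]
        decide
    · intro a π ha
      have h3 := h2 a (h1 a ha) π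
      have ha' : R a := ha
      show R _ ↔ _
      rw [h3, Equiv.Perm.mem_alternatingGroup]
      exact ⟨fun h => h.1 ha', fun h => ⟨fun _ => h, fun _ => ha'⟩⟩

theorem tf_iff {X : Type} (E : X → X → Prop) :
    TF.K X (fun _ v => E (v 0) (v 1)) ↔ IsTF E := Iff.rfl

theorem k_toS {X : Type} (R : (Fin 4 → X) → Prop) (E : X → X → Prop) :
    C4.K X (toS R E) ↔ IsT4 R ∧ IsTF E := by
  show (HT 4 (alternatingGroup (Fin 4))).K X (fun _ v => R v) ∧
    TF.K X (fun _ v => E (v 0) (v 1)) ↔ _
  rw [t4_iff, tf_iff]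

theorem k_iff {X : Type} (r : Str (Unit ⊕ Unit) ar4 X) :
    C4.K X r ↔ IsT4 (fun a => r.fst () a) ∧ IsTF (fun x y => r.snd () ![x, y]) := by
  rw [← k_toS, toS_self]

theorem pi_empty {X Y : Type} (r : Str (Unit ⊕ Unit) ar4 X) (s : Str (Unit ⊕ Unit) ar4 Y) :
    PI r s ∅ := by
  refine ⟨Set.finite_empty, by simp, ?_⟩
  intro i v v' hv
  rcases i with i | i
  · exact absurd (hv (0 : Fin 4)) (by simp)
  · exact absurd (hv (0 : Fin 2)) (by simp)

/-- structures with the extension property are limits -/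
theorem isLim_of {M : Type} [Countable M] [Infinite M] (r : Str (Unit ⊕ Unit) ar4 M)
    (hK : C4.K M r) (hP : PE C4 M r) :
    IsLim M (fun a => r.fst () a) (fun x y => r.snd () ![x, y]) := by
  have hK' := (k_iff r).1 hK
  haveI : Nonempty M := inferInstance
  refine ⟨inferInstance, inferInstance, hK'.1, hK'.2, ?_, ?_⟩
  · intro n R₀ E₀ hR hE
    obtain ⟨q, -, hq, hq2⟩ := (pi_empty (toS R₀ E₀) r).fext ((k_toS R₀ E₀).2 ⟨hR, hE⟩) hP Finset.univ
    have hq3 : ∀ x, ∃ y, (x, y) ∈ q := fun x => hq2 x (Finset.mem_univ x)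
    choose f hf using hq3
    refine ⟨f, ?_, ?_, ?_⟩
    · intro x y hxy
      exact (hq.bij _ (hf x) _ (hf y)).2 hxy
    · intro a
      exact hq.iso (Sum.inl ()) a (fun i => f (a i)) (fun l => hf (a l))
    · intro x y
      have h1 := hq.iso (Sum.inr ()) ![x, y] ![f x, f y] (fun l => by
        change Fin 2 at l
        fin_cases l
        · exact hf x
        · exact hf y)
      exact h1
  · intro A hA f hf hR hE
    haveI : Finite A := hA.to_subtype
    have hp : PI r r (Set.range (fun x : A => ((x : M), f x))) := by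
      refine ⟨Set.finite_range _, ?_, ?_⟩
      · rintro _ ⟨x, rfl⟩ _ ⟨y, rfl⟩
        show (x : M) = y ↔ f x = f y
        rw [hf.eq_iff]
        exact Subtype.ext_iff.symm
      · intro i v v' hv
        choose w hw using hv
        have h1 : (fun l => (w l : M)) = v := funext fun l => congrArg Prod.fst (hw l)
        have h2 : (fun l => f (w l)) = v' := funext fun l => congrArg Prod.snd (hw l)
        rw [← h1, ← h2]
        rcases i with i | i
        · exact hR w
        · have h3 := hE (w (0 : Fin 2)) (w (1 : Fin 2))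
          have h4 := evE r (fun l : Fin 2 => (w l : M))
          have h5 := evE r (fun l : Fin 2 => f (w l))
          exact (iff_of_eq h4).trans (h3.trans (iff_of_eq h5).symm)
    obtain ⟨σ, h1, h2⟩ := hp.bf hK hK hP hP
    refine ⟨σ, ?_, ?_, ?_⟩
    · intro a
      exact h2 (Sum.inl ()) a
    · intro x y
      have h3 := h2 (Sum.inr ()) (![x, y] : Fin 2 → M)
      exact (iff_of_eq (pullE r (fun z => σ z) x y)).symm.trans h3
    · intro x
      exact h1 _ ⟨x, rfl⟩

/-- automorphisms preserve the structure -/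
theorem aut_toS {M N : Type} {R : (Fin 4 → M) → Prop} {E : M → M → Prop}
    {R' : (Fin 4 → N) → Prop} {E' : N → N → Prop} (f : M → N)
    (h1 : ∀ a, R' (fun i => f (a i)) ↔ R a) (h2 : ∀ x y, E' (f x) (f y) ↔ E x y) :
    (toS R' E').pull f = toS R E := by
  funext i v
  rcases i with i | i
  · exact propext (h1 v)
  · exact propext (h2 (v (0 : Fin 2)) (v (1 : Fin 2)))

/-- limits have the extension property -/
theorem pe_of {M : Type} {R : (Fin 4 → M) → Prop} {E : M → M → Prop} (h : IsLim M R E) :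
    PE C4 M (toS R E) := by
  intro C hC D hK hD
  haveI : Finite C := hC.to_subtype
  obtain ⟨n, ⟨c⟩⟩ := Finite.exists_equiv_fin (Option C)
  have hK' : C4.K (Fin n) (D.pull c.symm) := C4.pull _ _ _ _ c.symm.injective hK
  have hK2 := (k_iff _).1 hK'
  obtain ⟨f, hf, hfR, hfE⟩ := h.univ n _ _ hK2.1 hK2.2
  -- the embedding of `Option C`
  have hg : (toS R E).pull (fun o => f (c o)) = D := by
    have h1 : (toS R E).pull f = D.pull c.symm := by
      rw [← toS_self (D.pull c.symm)]
      exact aut_toS f (fun a => (hfR a).symm) (fun x y => (hfE x y).symm)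
    have h2 : (toS R E).pull (fun o => f (c o)) = ((toS R E).pull f).pull c := rfl
    rw [h2, h1, Str.pull_pull]
    have h3 : (fun x => c.symm (c x)) = fun x => x := by funext x; simp
    rw [h3]
    rfl
  let g : Option C → M := fun o => f (c o)
  have hginj : Injective g := fun x y hxy => c.injective (hf hxy)
  -- move the copy of `C` back
  let A : Set M := Set.range (fun x : C => g (some x))
  have hA : A.Finite := Set.finite_range _
  have hb : ∀ x : A, ∃ z : C, g (some z) = x := fun x => x.2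
  choose b hb using hb
  have hbg : ∀ z : C, b ⟨g (some z), z, rfl⟩ = z := by
    intro z
    have := hginj (hb ⟨g (some z), z, rfl⟩)
    exact Option.some_inj.1 this
  have hstr : (toS R E).pull (fun x : C => g (some x)) = (toS R E).pull (Subtype.val : C → M) := by
    have h1 : (toS R E).pull (fun x : C => g (some x)) = ((toS R E).pull g).pull some := rfl
    rw [h1]
    have h2 : (toS R E).pull g = D := hg
    rw [h2, hD]
  have hstr2 : (toS R E).pull (Subtype.val : A → M) = (toS R E).pull (fun x : A => (b x : M)) := by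
    have h1 : (toS R E).pull (fun x : A => (b x : M)) =
        ((toS R E).pull (Subtype.val : C → M)).pull b := rfl
    rw [h1, ← hstr, Str.pull_pull]
    congr 1
    funext x
    exact (hb x).symm
  obtain ⟨σ, hσR, hσE, hσ⟩ := h.homog A hA (fun x => (b x : M))
    (by
      intro x y hxy
      have h1 : b x = b y := Subtype.ext hxy
      apply Subtype.ext
      rw [← hb x, ← hb y, h1])
    (fun a => iff_of_eq (congrFun (congrFun hstr2 (Sum.inl ())) a))
    (fun x y => iff_of_eq (congrFun (congrFun hstr2 (Sum.inr ())) ![x, y]))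
  have hσc : ∀ z : C, σ (g (some z)) = z := by
    intro z
    have h1 := hσ ⟨g (some z), z, rfl⟩
    simp only at h1
    rw [h1, hbg]
  refine ⟨σ (g none), ?_, ?_⟩
  · intro hmem
    have h1 := hσc ⟨_, hmem⟩
    simp only at h1
    have h2 := hginj (σ.injective h1)
    exact absurd h2 (by simp)
  · have h1 : oval C (σ (g none)) = fun o => σ (g o) := by
      funext o
      cases o with
      | none => rfl
      | some z => exact (hσc z).symm
    rw [h1]
    have h2 : (toS R E).pull (fun o => σ (g o)) = ((toS R E).pull σ).pull g := rfl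
    rw [h2, aut_toS (R := R) (E := E) (fun x => σ x) hσR hσE]
    exact hg

end c4

theorem fnb : S_FNB := by
  rintro ⟨W, hT, hW⟩
  have hP : PE C4 W.M W.r := hW
  refine ⟨⟨W.M, _, _, isLim_of W.r W.good.cls hP⟩, ?_⟩
  intro M R E h
  haveI := h.cnt
  haveI := h.inf
  haveI : Nonempty M := inferInstance
  haveI : Nonempty W.M := inferInstance
  obtain ⟨θ, -, hθ⟩ := (pi_empty W.r (toS R E)).bf W.good.cls ((k_toS R E).2 ⟨h.t4, h.tf⟩) hP
    (pe_of h)
  have hθR : ∀ a : Fin 4 → M, R a ↔ W.r (Sum.inl ()) (fun i => θ.symm (a i)) := by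
    intro a
    have h1 := hθ (Sum.inl ()) (fun i => θ.symm (a i))
    have h2 : (fun l : Fin 4 => θ (θ.symm (a l))) = a := by funext l; simp
    rw [← h1]
    show _ ↔ R (fun l : Fin 4 => θ (θ.symm (a l)))
    rw [h2]
  have hθE : ∀ x y : M, E x y ↔ W.r (Sum.inr ()) ![θ.symm x, θ.symm y] := by
    intro x y
    have h1 := hθ (Sum.inr ()) ![θ.symm x, θ.symm y]
    rw [← h1]
    show _ ↔ E (θ (θ.symm x)) (θ (θ.symm y))
    simp
  let act : MulAction W.G M :=
    { smul := fun g x => θ (g • θ.symm x)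
      one_smul := fun x => by
        show θ ((1 : W.G) • θ.symm x) = x
        rw [one_smul]
        simp
      mul_smul := fun g g' x => by
        show θ ((g * g') • θ.symm x) = θ (g • θ.symm (θ (g' • θ.symm x)))
        rw [mul_smul]
        simp }
  have hact : ∀ (g : W.G) (x : M), θ.symm (g • x) = g • θ.symm x := by
    intro g x
    show θ.symm (θ (g • θ.symm x)) = _
    simp
  refine ⟨W.G, W.grp, act, ?_, ?_, ?_⟩
  · intro g a
    rw [hθR, hθR]
    have h1 := congrFun (congrFun (W.good.inv g) (Sum.inl ())) (fun i => θ.symm (a i))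
    rw [← iff_of_eq h1]
    show W.r (Sum.inl ()) (fun i => θ.symm (g • a i)) ↔ W.r (Sum.inl ()) (fun i => g • θ.symm (a i))
    simp only [hact]
  · intro g x y
    rw [hθE, hθE]
    have h1 := congrFun (congrFun (W.good.inv g) (Sum.inr ())) ![θ.symm x, θ.symm y]
    have h2 := pullE W.r (fun x => g • x) (θ.symm x) (θ.symm y)
    rw [hact, hact]
    exact (iff_of_eq h2).symm.trans (iff_of_eq h1)
  · intro a b ha hb hab hE
    have hpull : W.r.pull (fun i => θ.symm (a i)) = W.r.pull (fun i => θ.symm (b i)) := by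
      funext i v
      rcases i with i | i
      · show W.r (Sum.inl ()) (fun l => θ.symm (a (v l))) = W.r (Sum.inl ()) (fun l => θ.symm (b (v l)))
        apply propext
        rw [← hθR (fun l => a (v l)), ← hθR (fun l => b (v l))]
        change Fin 4 → Fin 4 at v
        by_cases hv : Injective v
        · let π : Equiv.Perm (Fin 4) := Equiv.ofBijective v (Finite.injective_iff_bijective.1 hv)
          have h1 := h.t4.2 a ha π
          have h2 := h.t4.2 b hb π
          have h3 : (R fun i => a (π i)) ↔ (R fun i => b (π i)) := by rw [h1, h2, hab]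
          exact h3
        · refine iff_of_false ?_ ?_
          · intro h1
            exact hv (Injective.of_comp (h.t4.1 _ h1))
          · intro h1
            exact hv (Injective.of_comp (h.t4.1 _ h1))
      · change Fin 2 → Fin 4 at v
        have h1 := hE (v 0) (v 1)
        rw [hθE, hθE] at h1
        have h2 : ∀ c : Fin 4 → M, W.r (Sum.inr ()) (fun l : Fin 2 => θ.symm (c (v l))) =
            W.r (Sum.inr ()) (![θ.symm (c (v 0)), θ.symm (c (v 1))] : Fin 2 → W.M) := by
          intro c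
          exact evE W.r (fun l : Fin 2 => θ.symm (c (v l)))
        exact (h2 a).trans ((propext h1).trans (h2 b).symm)
    obtain ⟨g, hg⟩ := hT (fun i => θ.symm (a i)) (fun i => θ.symm (b i))
      (fun i j hij => ha (θ.symm.injective hij)) (fun i j hij => hb (θ.symm.injective hij)) hpull
    refine ⟨g, ?_, ?_⟩
    · intro i
      apply θ.symm.injective
      rw [hact, hg]
    · intro g' hg'
      have h1 : g⁻¹ * g' = 1 := by
        apply W.good.shp (g⁻¹ * g') (fun i => θ.symm (a i)) (fun i j hij => ha (θ.symm.injective hij))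
        intro i
        rw [mul_smul, ← hact, hg' i, inv_smul_eq_iff, hg]
      rw [inv_mul_eq_one] at h1
      exact h1.symm

end Q272.SK
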