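import Pool.Agent.Q32.SK.Stm

/-!
# Project SK, job GRP: the group generated by `G` and a generic permutation
-/

set_option autoImplicit false

namespace Q272.SK

open Function Q32.SK

section words

variable {G M : Type} [Group G] [MulAction G M]

/-- the permutation of a letter -/
def lp (t : Equiv.Perm M) (l : G × Bool) : Equiv.Perm M :=
  (if l.2 = true then t else t⁻¹) * MulAction.toPermHom G M l.1

/-- the permutation of a word -/
def vl (t : Equiv.Perm M) : List (G × Bool) → Equiv.Perm M
  | [] => 1
  | l :: w => vl t w * lp t l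

theorem vl_append (t : Equiv.Perm M) (w w' : List (G × Bool)) :
    vl t (w ++ w') = vl t w' * vl t w := by
  induction w with
  | nil => simp [vl]
  | cons l w ih => rw [List.cons_append, vl, ih, vl, mul_assoc]

theorem stp_iff (t : Equiv.Perm M) (l : G × Bool) (x y : M) :
    Stp {q : M × M | t q.1 = q.2} l x y ↔ lp t l x = y := by
  obtain ⟨g, b⟩ := l
  unfold Stp lp
  cases b
  · simp only [Bool.false_eq_true, false_and, false_or, true_and, Set.mem_ofPred_eq, if_false,
      Equiv.Perm.mul_apply, MulAction.toPermHom_apply, MulAction.toPerm_apply]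
    rw [Equiv.Perm.inv_eq_iff_eq]
    exact eq_comm
  · simp only [Bool.true_eq_false, false_and, or_false, true_and, Set.mem_ofPred_eq, if_true,
      Equiv.Perm.mul_apply, MulAction.toPermHom_apply, MulAction.toPerm_apply]

theorem tr_iff (t : Equiv.Perm M) (w : List (G × Bool)) (x y : M) :
    Tr {q : M × M | t q.1 = q.2} w x y ↔ vl t w x = y := by
  induction w generalizing x with
  | nil =>
    constructor
    · intro h; cases h; rfl
    · intro h
      have h' : x = y := h
      rw [h']; exact Tr.nil y
  | cons l w ih =>
    constructor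
    · intro h
      cases h with
      | cons _ _ _ z _ h1 h2 =>
        rw [stp_iff] at h1
        rw [ih] at h2
        rw [vl, Equiv.Perm.mul_apply, h1, h2]
    · intro h
      rw [vl, Equiv.Perm.mul_apply] at h
      exact Tr.cons l w x (lp t l x) y ((stp_iff t l x _).2 rfl) ((ih _).2 h)

/-- powers of a word -/
def pw (w : List (G × Bool)) : ℕ → List (G × Bool)
  | 0 => []
  | n + 1 => w ++ pw w n

theorem vl_pw (t : Equiv.Perm M) (w : List (G × Bool)) (n : ℕ) : vl t (pw w n) = vl t w ^ n := by
  induction n with
  | zero => simp [pw, vl]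
  | succ n ih => rw [pw, vl_append, ih, pow_succ]

theorem pw_add (w : List (G × Bool)) (m n : ℕ) : pw w (m + n) = pw w m ++ pw w n := by
  induction m with
  | zero => simp [pw]
  | succ m ih => rw [Nat.succ_add, pw, ih, pw, List.append_assoc]

theorem pair_pw (w : List (G × Bool)) (l l' : G × Bool) (n : ℕ) :
    ∀ u v : List (G × Bool), pw w n = u ++ l :: l' :: v →
      ∃ u' v', w ++ w = u' ++ l :: l' :: v' := by
  induction n with
  | zero => intro u v h; rw [pw] at h; exact absurd h.symm (by simp)
  | succ n ih =>
    intro u v h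
    rw [pw] at h
    rcases List.append_eq_append_iff.1 h with ⟨a', h1, h2⟩ | ⟨c', h1, h2⟩
    · exact ih a' v h2
    · match c', h1, h2 with
      | [], h1, h2 => exact ih [] v (by simpa using h2.symm)
      | [c], h1, h2 =>
        simp only [List.cons_append, List.nil_append, List.cons.injEq] at h2
        obtain ⟨hc, h3⟩ := h2
        subst hc
        cases n with
        | zero => rw [pw] at h3; exact absurd h3 (by simp)
        | succ n =>
          rw [pw] at h3
          match w, h1, h3 with
          | [], h1, _ => exact absurd h1.symm (by simp)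
          | y :: w0, h1, h3 =>
            simp only [List.cons_append, List.cons.injEq] at h3
            obtain ⟨h4, -⟩ := h3
            subst h4
            refine ⟨u, w0, ?_⟩
            nth_rewrite 1 [h1]
            simp
      | c :: c2 :: c3, h1, h2 =>
        simp only [List.cons_append, List.cons.injEq] at h2
        obtain ⟨hc, hc2, h3⟩ := h2
        subst hc; subst hc2
        refine ⟨u, c3 ++ w, ?_⟩
        nth_rewrite 1 [h1]
        simp

theorem cyc_pw {S S' : Subgroup G} {w : List (G × Bool)} (h : Cyc S S' w) {n : ℕ} (hn : 0 < n) :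
    Cyc S S' (pw w n) := by
  obtain ⟨h1, h2⟩ := h
  refine ⟨?_, ?_⟩
  · obtain ⟨m, rfl⟩ := Nat.exists_eq_succ_of_ne_zero (by omega : n ≠ 0)
    rw [pw]
    intro h3
    exact h1 (List.append_eq_nil_iff.1 h3).1
  · intro u v l l' h3
    rw [← pw_add] at h3
    obtain ⟨u', v', h4⟩ := pair_pw w l l' _ u v h3
    exact h2 u' v' l l' h4

/-- not cyclically reduced words: rotate -/
theorem rot_bad {S S' : Subgroup G} {w : List (G × Bool)} (hw : w ≠ []) (h : ¬ Cyc S S' w) :
    ∃ (x y z : List (G × Bool)) (l l' : G × Bool), w = x ++ y ∧ y ++ x = l :: l' :: z ∧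
      Bad S S' l l' := by
  unfold Cyc at h
  push Not at h
  obtain ⟨u, v, l, l', h1, hB⟩ := h hw
  rcases List.append_eq_append_iff.1 h1 with ⟨a', h2, h3⟩ | ⟨c', h2, h3⟩
  · exact ⟨a', l :: l' :: v, v ++ a', l, l', h3, by simp, hB⟩
  · match c', h2, h3 with
    | [], h2, h3 => exact ⟨[], w, v, l, l', by simp, by simpa using h3.symm, hB⟩
    | [c], h2, h3 =>
      simp only [List.cons_append, List.nil_append, List.cons.injEq] at h3
      obtain ⟨hc, h4⟩ := h3
      subst hc
      match u, h2 with
      | [], h2 =>
        exfalso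
        rw [h2] at h4
        simp only [List.nil_append, List.cons.injEq] at h4
        obtain ⟨h5, -⟩ := h4
        subst h5
        rcases hB with hB | hB
        · exact absurd (hB.1.symm.trans hB.2.1) (by simp)
        · exact absurd (hB.1.symm.trans hB.2.1) (by simp)
      | u0 :: u1, h2 =>
        rw [h2] at h4
        simp only [List.cons_append, List.cons.injEq] at h4
        obtain ⟨h5, -⟩ := h4
        subst h5
        exact ⟨l' :: u1, [l], u1, l, l', h2, by simp, hB⟩
    | c :: c2 :: c3, h2, h3 =>
      simp only [List.cons_append, List.cons.injEq] at h3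
      obtain ⟨hc, hc2, h4⟩ := h3
      subst hc; subst hc2
      exact ⟨u, l :: l' :: c3, c3 ++ u, l, l', h2, by simp, hB⟩

variable (S S' : Subgroup G) (φ : S ≃* S') (t : Equiv.Perm M)

/-- two letters which can be reduced -/
theorem bad_lp (ht : ∀ (s : S) (x : M), t ((s : G) • x) = (φ s : G) • t x) {l l' : G × Bool}
    (h : Bad S S' l l') : ∃ g : G, lp t l' * lp t l = MulAction.toPermHom G M g := by
  obtain ⟨g, b⟩ := l
  obtain ⟨g', b'⟩ := l'
  rcases h with ⟨h1, h2, h3⟩ | ⟨h1, h2, h3⟩
  · simp only at h1 h2 h3
    subst h1; subst h2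
    refine ⟨(φ.symm ⟨g', h3⟩ : S) * g, ?_⟩
    ext x
    simp only [lp, Bool.false_eq_true, if_false, if_true, Equiv.Perm.mul_apply,
      MulAction.toPermHom_apply, MulAction.toPerm_apply]
    rw [Equiv.Perm.inv_eq_iff_eq, mul_smul, ht]
    simp
  · simp only at h1 h2 h3
    subst h1; subst h2
    refine ⟨(φ ⟨g', h3⟩ : S') * g, ?_⟩
    ext x
    simp only [lp, Bool.false_eq_true, if_false, if_true, Equiv.Perm.mul_apply,
      MulAction.toPermHom_apply, MulAction.toPerm_apply]
    rw [mul_smul]
    have h4 := ht ⟨g', h3⟩ (t⁻¹ (g • x))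
    simp only at h4
    rw [h4]
    simp

/-- the group -/
abbrev KK (G : Type) {M : Type} [Group G] [MulAction G M] (t : Equiv.Perm M) :
    Subgroup (Equiv.Perm M) :=
  Subgroup.closure (Set.range (MulAction.toPermHom G M) ∪ {t})

theorem rho_mem (g : G) : MulAction.toPermHom G M g ∈ KK G t :=
  Subgroup.subset_closure (Or.inl ⟨g, rfl⟩)

theorem t_mem : t ∈ KK G t := Subgroup.subset_closure (Or.inr rfl)

theorem lp_mem (l : G × Bool) : lp t l ∈ KK G t := by
  unfold lp
  split
  · exact mul_mem (t_mem t) (rho_mem t _)
  · exact mul_mem (inv_mem (t_mem t)) (rho_mem t _)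

theorem vl_mem (w : List (G × Bool)) : vl t w ∈ KK G t := by
  induction w with
  | nil => exact one_mem _
  | cons l w ih => exact mul_mem ih (lp_mem t l)

/-- conjugacy to a reduced form -/
theorem conj_form (ht : ∀ (s : S) (x : M), t ((s : G) • x) = (φ s : G) • t x) (n : ℕ) :
    ∀ (g : G) (w : List (G × Bool)), w.length = n → ∃ u ∈ KK G t,
      (∃ g' : G, u * (MulAction.toPermHom G M g * vl t w) * u⁻¹ = MulAction.toPermHom G M g') ∨
      (∃ w', Cyc S S' w' ∧ u * (MulAction.toPermHom G M g * vl t w) * u⁻¹ = vl t w') := by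
  induction n using Nat.strong_induction_on with
  | _ n ih =>
    intro g w hn
    match w, hn with
    | [], hn => exact ⟨1, one_mem _, Or.inl ⟨g, by simp [vl]⟩⟩
    | (g1, b) :: w1, hn =>
      -- absorb g
      have h1 : (MulAction.toPermHom G M g)⁻¹ *
          (MulAction.toPermHom G M g * vl t ((g1, b) :: w1)) * MulAction.toPermHom G M g =
          vl t ((g1 * g, b) :: w1) := by
        rw [inv_mul_cancel_left, vl, vl, lp, lp]
        simp only [map_mul, mul_assoc]
      by_cases hC : Cyc S S' ((g1 * g, b) :: w1)
      · refine ⟨(MulAction.toPermHom G M g)⁻¹, inv_mem (rho_mem t g), Or.inr ⟨_, hC, ?_⟩⟩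
        rw [inv_inv, h1]
      · obtain ⟨x, y, z, l, l', h2, h3, hB⟩ := rot_bad (by simp) hC
        obtain ⟨g2, hg2⟩ := bad_lp S S' φ t ht hB
        have hlen : z.length + 2 = n := by
          have h4 := congrArg List.length h2
          have h5 := congrArg List.length h3
          simp only [List.length_append, List.length_cons] at h4 h5 hn
          omega
        have h4 : vl t (y ++ x) = vl t z * MulAction.toPermHom G M g2 := by
          rw [h3, vl, vl, mul_assoc, hg2]
        obtain ⟨u, hu, h5⟩ := ih z.length (by omega) g2 z rfl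
        have h6 : (u * MulAction.toPermHom G M g2 * vl t x * (MulAction.toPermHom G M g)⁻¹) *
            (MulAction.toPermHom G M g * vl t ((g1, b) :: w1)) *
            (u * MulAction.toPermHom G M g2 * vl t x * (MulAction.toPermHom G M g)⁻¹)⁻¹ =
            u * (MulAction.toPermHom G M g2 * vl t z) * u⁻¹ := by
          have h7 : (MulAction.toPermHom G M g)⁻¹ *
            (MulAction.toPermHom G M g * vl t ((g1, b) :: w1)) * MulAction.toPermHom G M g =
            vl t y * vl t x := by
            rw [h1, h2, vl_append]
          rw [vl_append] at h4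
          calc _ = u * MulAction.toPermHom G M g2 * vl t x * ((MulAction.toPermHom G M g)⁻¹ *
            (MulAction.toPermHom G M g * vl t ((g1, b) :: w1)) * MulAction.toPermHom G M g) *
            (vl t x)⁻¹ * (MulAction.toPermHom G M g2)⁻¹ * u⁻¹ := by group
            _ = u * MulAction.toPermHom G M g2 * (vl t x * vl t y) *
              (MulAction.toPermHom G M g2)⁻¹ * u⁻¹ := by rw [h7]; group
            _ = u * (MulAction.toPermHom G M g2 * vl t z) * u⁻¹ := by rw [h4]; group
        refine ⟨u * MulAction.toPermHom G M g2 * vl t x * (MulAction.toPermHom G M g)⁻¹,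
          mul_mem (mul_mem (mul_mem hu (rho_mem t g2)) (vl_mem t x)) (inv_mem (rho_mem t g)), ?_⟩
        rw [h6]
        exact h5

/-- normal form of the elements -/
theorem form (h : Equiv.Perm M) (hh : h ∈ KK G t) :
    ∃ (g : G) (w : List (G × Bool)), h = MulAction.toPermHom G M g * vl t w := by
  induction hh using Subgroup.closure_induction_left with
  | one => exact ⟨1, [], by rw [vl, map_one, one_mul]⟩
  | mul_left x hx y hy ih =>
    obtain ⟨g, w, rfl⟩ := ih
    rcases hx with ⟨g', rfl⟩ | hx
    · exact ⟨g' * g, w, by rw [map_mul, mul_assoc]⟩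
    · rw [Set.mem_singleton_iff] at hx
      subst hx
      refine ⟨1, w ++ [(g, true)], ?_⟩
      rw [vl_append, map_one, one_mul, vl, vl, lp]
      simp [mul_assoc]
  | inv_mul_cancel x hx y hy ih =>
    obtain ⟨g, w, rfl⟩ := ih
    rcases hx with ⟨g', rfl⟩ | hx
    · exact ⟨g'⁻¹ * g, w, by rw [map_mul, map_inv, mul_assoc]⟩
    · rw [Set.mem_singleton_iff] at hx
      subst hx
      refine ⟨1, w ++ [(g, false)], ?_⟩
      rw [vl_append, map_one, one_mul, vl, vl, lp]
      simp [mul_assoc]

end words

theorem grp : S_GRP := by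
  intro k I ar 𝒞 G M _ _ _ r hG S S' φ t ht hrt hcyc
  have hconj : ∀ h ∈ KK G t, ∃ u ∈ KK G t,
      (∃ g' : G, u * h * u⁻¹ = MulAction.toPermHom G M g') ∨
      (∃ w' : List (G × Bool), Cyc S S' w' ∧ u * h * u⁻¹ = vl t w') := by
    intro h hh
    obtain ⟨g, w, rfl⟩ := form t h hh
    exact conj_form S S' φ t ht w.length g w rfl
  refine ⟨?_, ?_, ?_, ?_, ?_⟩
  · -- countable
    have hcount : (KK G t : Set (Equiv.Perm M)).Countable := by
      apply (Set.countable_range (fun q : G × List (G × Bool) =>
        MulAction.toPermHom G M q.1 * vl t q.2)).mono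
      intro h hh
      obtain ⟨g, w, hgw⟩ := form t h hh
      exact ⟨(g, w), hgw.symm⟩
    exact hcount.to_subtype
  · exact hG.cls
  · -- invariance
    rintro ⟨h, hh⟩
    have key : ∀ σ ∈ KK G t, r.pull (fun x => σ x) = r := by
      intro σ hσ
      induction hσ using Subgroup.closure_induction with
      | mem x hx =>
        rcases hx with ⟨g, rfl⟩ | hx
        · exact hG.inv g
        · rw [Set.mem_singleton_iff] at hx
          rw [hx]; exact hrt
      | one => rfl
      | mul x y hx hy h1 h2 =>
        have h3 : r.pull (fun z => (x * y) z) = (r.pull (fun z => x z)).pull (fun z => y z) := rfl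
        rw [h3, h1, h2]
      | inv x hx h1 =>
        have h3 : (r.pull (fun z => x z)).pull (fun z => x⁻¹ z) = r.pull (fun z => x (x⁻¹ z)) := rfl
        rw [h1] at h3
        rw [h3]
        have h4 : (fun z => x (x⁻¹ z)) = fun z => z := by
          funext z; exact Equiv.apply_symm_apply x z
        rw [h4]; rfl
    exact key h hh
  · -- shp
    rintro ⟨h, hh⟩ a ha hfix
    have hfix' : ∀ i, h (a i) = a i := hfix
    obtain ⟨u, hu, ⟨g', hg'⟩ | ⟨w', hw', hg'⟩⟩ := hconj h hh
    · have h1 : g' = 1 := by
        apply hG.shp g' (fun i => u (a i)) (fun i j hij => ha (u.injective hij))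
        intro i
        have h2 : MulAction.toPermHom G M g' (u (a i)) = u (a i) := by
          rw [← hg']
          simp [hfix' i]
        exact h2
      rw [h1, map_one] at hg'
      have h2 : h = 1 := by
        have h3 : u * h = u := by
          rw [← mul_inv_eq_one]; exact hg'
        simpa using h3
      exact Subtype.ext h2
    · exfalso
      apply hcyc w' hw' (fun i => u (a i)) (fun i j hij => ha (u.injective hij))
      intro j
      rw [tr_iff, ← hg']
      simp [hfix' j]
  · -- fre
    rintro ⟨h, hh⟩ D hD hpres hne x hx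
    have hpres' : ∀ x ∈ D, h x ∈ D := hpres
    have hx' : h x = x := hx
    have hne' : h ≠ 1 := fun h1 => hne (Subtype.ext h1)
    classical
    obtain ⟨u, hu, ⟨g', hg'⟩ | ⟨w', hw', hg'⟩⟩ := hconj h hh
    · have hact : ∀ z, g' • (u z) = u (h z) := by
        intro z
        have h2 : MulAction.toPermHom G M g' (u z) = u (h z) := by
          rw [← hg']; simp
        exact h2
      have h1 : u x ∈ D.image u := by
        apply hG.fre g' (D.image u)
        · rw [Finset.card_image_of_injective _ u.injective, hD]
        · intro z hz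
          obtain ⟨y, hy, rfl⟩ := Finset.mem_image.1 hz
          rw [hact]
          exact Finset.mem_image_of_mem _ (hpres' y hy)
        · intro h2
          rw [h2, map_one] at hg'
          apply hne'
          have h3 : u * h = u := by
            rw [← mul_inv_eq_one]; exact hg'
          simpa using h3
        · rw [hact, hx']
      obtain ⟨y, hy, hyx⟩ := Finset.mem_image.1 h1
      rw [← u.injective hyx]; exact hy
    · exfalso
      -- a power of h fixes D
      let f : D → D := fun z => ⟨h z.1, hpres' z.1 z.2⟩
      have hf : Injective f := by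
        intro y z hyz
        apply Subtype.ext
        exact h.injective (congrArg Subtype.val hyz)
      let σ : Equiv.Perm D := Equiv.ofBijective f (Finite.injective_iff_bijective.1 hf)
      have hσ : ∀ z : D, ((σ z : D) : M) = h z.1 := fun z => rfl
      have hσn : ∀ (n : ℕ) (z : D), (((σ ^ n) z : D) : M) = (h ^ n) z.1 := by
        intro n
        induction n with
        | zero => intro z; rfl
        | succ n ih =>
          intro z
          rw [pow_succ, pow_succ, Equiv.Perm.mul_apply, Equiv.Perm.mul_apply, ih, hσ]
      have hm : 0 < Fintype.card (Equiv.Perm D) := Fintype.card_pos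
      have hpow : ∀ z ∈ D, (h ^ Fintype.card (Equiv.Perm D)) z = z := by
        intro z hz
        have h2 := hσn (Fintype.card (Equiv.Perm D)) ⟨z, hz⟩
        rw [pow_card_eq_one] at h2
        exact h2.symm
      -- enumerate D
      let en : Fin k ≃ D := (Fintype.equivFinOfCardEq (by rw [Fintype.card_coe, hD])).symm
      apply hcyc (pw w' (Fintype.card (Equiv.Perm D))) (cyc_pw hw' hm) (fun i => u (en i).1)
        (fun i j hij => en.injective (Subtype.ext (u.injective hij)))
      intro j
      rw [tr_iff, vl_pw, ← hg', conj_pow]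
      simp [hpow (en j).1 (en j).2]

end Q272.SK
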