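import Pool.Agent.Q272.SK.FNB

/-!
# Project SK, job HF4: full tuples for 4-tournaments with triangle-free graphs
-/

set_option autoImplicit false

namespace Q272.SK

open Function Q32.SK

set_option maxRecDepth 100000 in
theorem key4 : ∀ σ : Equiv.Perm (Fin 4), Equiv.Perm.sign σ = 1 → σ ≠ 1 → ∀ x, σ x = x → ∀ u, u ≠ x →
    σ u ≠ u ∧ σ (σ (σ u)) = u ∧ ∀ v, v ≠ x → v ≠ u → v = σ u ∨ v = σ (σ u) := by decide

theorem noedge {E : Fin 4 → Fin 4 → Prop} (hE : IsTF E) {σ : Equiv.Perm (Fin 4)}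
    (hs : Equiv.Perm.sign σ = 1) (h1 : σ ≠ 1) {x : Fin 4} (hx : σ x = x)
    (hinv : ∀ u v, E (σ u) (σ v) ↔ E u v) (u v : Fin 4) (hu : u ≠ x) (hv : v ≠ x) : ¬ E u v := by
  intro h
  obtain ⟨hE1, hE2, hE3⟩ := hE
  have huv : v ≠ u := by
    rintro rfl
    exact hE1 _ h
  obtain ⟨-, h3, h4⟩ := key4 σ hs h1 x hx u hu
  have key : ¬ E u (σ u) := by
    intro h5
    have h6 : E (σ u) (σ (σ u)) := (hinv _ _).2 h5
    have h7 : E (σ (σ u)) (σ (σ (σ u))) := (hinv _ _).2 h6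
    rw [h3] at h7
    exact hE3 u (σ u) (σ (σ u)) ⟨h5, h6, hE2 _ _ h7⟩
  rcases h4 v hv huv with rfl | rfl
  · exact key h
  · have h5 : E (σ u) (σ (σ (σ u))) := (hinv _ _).2 h
    rw [h3] at h5
    exact key (hE2 _ _ h5)

theorem noedge2 {E : Fin 4 → Fin 4 → Prop} (hE : IsTF E) {σ τ : Equiv.Perm (Fin 4)}
    (hs : Equiv.Perm.sign σ = 1) (h1 : σ ≠ 1) {x : Fin 4} (hx : σ x = x)
    (hinv : ∀ u v, E (σ u) (σ v) ↔ E u v)
    (hs' : Equiv.Perm.sign τ = 1) (h1' : τ ≠ 1) {y : Fin 4} (hy : τ y = y)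
    (hinv' : ∀ u v, E (τ u) (τ v) ↔ E u v) (hxy : x ≠ y) (u v : Fin 4) : ¬ E u v := by
  have hσ := noedge hE hs h1 hx hinv
  have hτ := noedge hE hs' h1' hy hinv'
  have key : ¬ E x y := by
    intro h
    have h2 : E (σ x) (σ y) := (hinv _ _).2 h
    rw [hx] at h2
    exact hτ x (σ y) hxy (key4 σ hs h1 x hx y (Ne.symm hxy)).1 h2
  intro h
  by_cases h1 : u = x
  · subst h1
    by_cases h2 : v = y
    · subst h2; exact key h
    · exact hτ u v hxy h2 h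
  · by_cases h2 : v = x
    · subst h2
      by_cases h3 : u = y
      · subst h3; exact key (hE.2.1 _ _ h)
      · exact hτ u v h3 hxy h
    · exact hσ u v h1 h2 h

/-- tuples obtained from a positive tuple of a 4-tournament -/
theorem t4_pos {M : Type} {R : (Fin 4 → M) → Prop} (h : IsT4 R) {a : Fin 4 → M} (ha : R a)
    (π : Equiv.Perm (Fin 4)) : R (fun i => a (π i)) ↔ Equiv.Perm.sign π = 1 := by
  rw [h.2 a (h.1 a ha) π]
  exact ⟨fun h1 => h1.1 ha, fun h1 => ⟨fun _ => h1, fun _ => ha⟩⟩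

theorem t4_ex {M : Type} {R : (Fin 4 → M) → Prop} (h : IsT4 R) {a : Fin 4 → M} (ha : Injective a) :
    ∃ π : Equiv.Perm (Fin 4), R (fun i => a (π i)) := by
  by_cases h1 : R a
  · exact ⟨1, h1⟩
  · refine ⟨Equiv.swap 0 1, ?_⟩
    rw [h.2 a ha]
    refine iff_of_false h1 ?_
    rw [Equiv.Perm.sign_swap (by decide)]
    decide

/-- the group of a type -/
def PG (r₀ : Str (Unit ⊕ Unit) ar4 (Fin 4)) : Subgroup (alternatingGroup (Fin 4)) where
  carrier := {σ | r₀.pull (fun i => (σ : Equiv.Perm (Fin 4)) i) = r₀}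
  mul_mem' := by
    intro σ τ h1 h2
    have h1' : r₀.pull (fun i => (σ : Equiv.Perm (Fin 4)) i) = r₀ := h1
    have h2' : r₀.pull (fun i => (τ : Equiv.Perm (Fin 4)) i) = r₀ := h2
    show r₀.pull (fun i => (σ : Equiv.Perm (Fin 4)) ((τ : Equiv.Perm (Fin 4)) i)) = r₀
    have h3 : r₀.pull (fun i => (σ : Equiv.Perm (Fin 4)) ((τ : Equiv.Perm (Fin 4)) i)) =
      (r₀.pull (fun i => (σ : Equiv.Perm (Fin 4)) i)).pull
        (fun i => (τ : Equiv.Perm (Fin 4)) i) := rfl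
    rw [h3, h1', h2']
  one_mem' := rfl
  inv_mem' := by
    intro σ h1
    have h1' : r₀.pull (fun i => (σ : Equiv.Perm (Fin 4)) i) = r₀ := h1
    show r₀.pull (fun i => ((σ : Equiv.Perm (Fin 4))⁻¹) i) = r₀
    have h3 : (r₀.pull (fun i => (σ : Equiv.Perm (Fin 4)) i)).pull
        (fun i => ((σ : Equiv.Perm (Fin 4))⁻¹) i) = r₀ := by
      rw [Str.pull_pull]
      have h4 : (fun x => (σ : Equiv.Perm (Fin 4)) ((σ : Equiv.Perm (Fin 4))⁻¹ x)) = fun x => x := by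
        funext x
        exact Equiv.apply_symm_apply _ x
      rw [h4]
      rfl
    rw [h1'] at h3
    exact h3

theorem mem_PG {r₀ : Str (Unit ⊕ Unit) ar4 (Fin 4)} {σ : alternatingGroup (Fin 4)} :
    σ ∈ PG r₀ ↔ r₀.pull (fun i => (σ : Equiv.Perm (Fin 4)) i) = r₀ := Iff.rfl

theorem PG_all {r₀ : Str (Unit ⊕ Unit) ar4 (Fin 4)} (hK : C4.K (Fin 4) r₀)
    {π : Equiv.Perm (Fin 4)} (h : r₀.pull (fun i => π i) = r₀) :
    ∃ σ ∈ PG r₀, (σ : Equiv.Perm (Fin 4)) = π := by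
  have hr4 := ((k_iff r₀).1 hK).1
  have h1 := hr4.2 (fun i => i) injective_id π
  have h2 := congrFun (congrFun h (Sum.inl ())) (fun i => i)
  have h3 : Equiv.Perm.sign π = 1 := by
    have h4 : (r₀.fst () (fun i => π i)) ↔ r₀.fst () (fun i => i) := iff_of_eq h2
    tauto
  exact ⟨⟨π, h3⟩, h, rfl⟩

/-- case 1 -/
theorem hf4_case1 (B : Stg 4 C4) (φ : alternatingGroup (Fin 4) →* B.G) (ι : Fin 4 → B.M)
    (hι : Injective ι) (hφ : ∀ g i, φ g • ι i = ι ((g : Equiv.Perm (Fin 4)) i))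
    (hne : ∀ i j, ¬ B.r (Sum.inr ()) (![ι i, ι j] : Fin 2 → B.M))
    (r₀ : Str (Unit ⊕ Unit) ar4 (Fin 4)) (hK : C4.K (Fin 4) r₀)
    (hno : ∀ u v, ¬ r₀ (Sum.inr ()) (![u, v] : Fin 2 → Fin 4)) :
    ∃ a : Fin 4 → B.M, Full B.G B.M B.r a ∧ B.r.pull a = r₀ := by
  have hB4 := ((k_iff B.r).1 B.good.cls).1
  have hr4 := ((k_iff r₀).1 hK).1
  obtain ⟨π₁, hπ₁⟩ := t4_ex hB4 hι
  obtain ⟨π₀, hπ₀⟩ := t4_ex hr4 (a := fun i => i) injective_id
  let a : Fin 4 → B.M := fun i => ι (π₁ (π₀⁻¹ i))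
  have ha : Injective a := fun i j h => π₀⁻¹.injective (π₁.injective (hι h))
  have htyp : B.r.pull a = r₀ := by
    funext i v
    rcases i with i | i
    · change Fin 4 → Fin 4 at v
      apply propext
      show B.r.fst () (fun l => a (v l)) ↔ r₀.fst () v
      by_cases hv : Injective v
      · let π : Equiv.Perm (Fin 4) := Equiv.ofBijective v (Finite.injective_iff_bijective.1 hv)
        have h1 := t4_pos hB4 hπ₁ (π₀⁻¹ * π)
        have h2 := t4_pos hr4 hπ₀ (π₀⁻¹ * π)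
        have h3 : (fun i => ι (π₁ ((π₀⁻¹ * π) i))) = fun l => a (v l) := rfl
        have h4 : (fun i => π₀ ((π₀⁻¹ * π) i)) = v := by
          funext i
          exact Equiv.apply_symm_apply π₀ (v i)
        rw [h3] at h1
        rw [h4] at h2
        rw [h1, h2]
      · refine iff_of_false ?_ ?_
        · intro h1
          have h2 : Injective (fun l => a (v l)) := hB4.1 _ h1
          exact hv (Injective.of_comp (f := a) (g := v) h2)
        · intro h1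
          exact hv (hr4.1 _ h1)
    · change Fin 2 → Fin 4 at v
      apply propext
      refine iff_of_false ?_ ?_
      · intro h1
        have h2 : B.r (Sum.inr ()) (fun l : Fin 2 => a (v l)) := h1
        rw [evE B.r (fun l : Fin 2 => a (v l))] at h2
        exact hne _ _ h2
      · intro h1
        rw [evE r₀ v] at h1
        exact hno _ _ h1
  refine ⟨a, ⟨ha, ?_⟩, htyp⟩
  intro π hπ
  have hπ' : r₀.pull (fun i => π i) = r₀ := by
    have h1 : B.r.pull (fun i => a (π i)) = (B.r.pull a).pull (fun i => π i) := rfl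
    rw [h1, htyp] at hπ
    exact hπ
  obtain ⟨σ, -, hσ⟩ := PG_all hK hπ'
  have hsg : Equiv.Perm.sign (π₁ * π₀⁻¹ * π * (π₁ * π₀⁻¹)⁻¹) = 1 := by
    rw [← hσ]
    have h5 : Equiv.Perm.sign (σ : Equiv.Perm (Fin 4)) = 1 := σ.2
    rw [map_mul, map_mul Equiv.Perm.sign (π₁ * π₀⁻¹) _, map_inv, h5, mul_one, mul_inv_cancel]
  refine ⟨φ ⟨π₁ * π₀⁻¹ * π * (π₁ * π₀⁻¹)⁻¹, hsg⟩, ?_⟩
  intro i
  show φ _ • ι (π₁ (π₀⁻¹ i)) = ι (π₁ (π₀⁻¹ (π i)))
  rw [hφ]
  congr 1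
  simp

/-- case 2 -/
theorem hf4_case2 (exg : S_EXG) (hE : EAP 4 C4) (B : Stg 4 C4)
    (φ : alternatingGroup (Fin 4) →* B.G) (ι : Fin 4 → B.M)
    (hι : Injective ι) (hφ : ∀ g i, φ g • ι i = ι ((g : Equiv.Perm (Fin 4)) i))
    (r₀ : Str (Unit ⊕ Unit) ar4 (Fin 4)) (hK : C4.K (Fin 4) r₀)
    (O : Set (Fin 4)) (hO : ∀ x, x ∈ O ↔ ∃ σ ∈ PG r₀, σ ≠ 1 ∧ (σ : Equiv.Perm (Fin 4)) x = x)
    (hO1 : ∀ x ∈ O, ∀ y ∈ O, x = y) :
    ∃ (C : Stg 4 C4) (_ : Ext B C) (a : Fin 4 → C.M), Full C.G C.M C.r a ∧ C.r.pull a = r₀ := by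
  classical
  have hB4 := (k_iff B.r).1 B.good.cls
  have hr4 := (k_iff r₀).1 hK
  have hφinj : Injective φ := by
    intro σ τ h
    apply Subtype.ext
    ext i
    have h1 := hφ σ i
    rw [h, hφ τ i] at h1
    rw [hι h1]
  -- orbits of PG
  let P := PG r₀
  have hOinv : ∀ σ ∈ P, ∀ x ∈ O, (σ : Equiv.Perm (Fin 4)) x ∈ O := by
    intro σ hσ x hx
    obtain ⟨τ, hτ, h1, h2⟩ := (hO x).1 hx
    refine (hO _).2 ⟨σ * τ * σ⁻¹, mul_mem (mul_mem hσ hτ) (inv_mem hσ), ?_, ?_⟩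
    · intro h3
      apply h1
      rw [mul_inv_eq_one] at h3
      exact mul_left_cancel (h3.trans (mul_one σ).symm)
    · show (σ : Equiv.Perm (Fin 4)) ((τ : Equiv.Perm (Fin 4)) ((σ : Equiv.Perm (Fin 4))⁻¹
        ((σ : Equiv.Perm (Fin 4)) x))) = _
      have h3 : (σ : Equiv.Perm (Fin 4))⁻¹ ((σ : Equiv.Perm (Fin 4)) x) = x :=
        Equiv.symm_apply_apply _ x
      rw [h3, h2]
  have hfree : ∀ x, x ∉ O → ∀ σ ∈ P, (σ : Equiv.Perm (Fin 4)) x = x → σ = 1 := by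
    intro x hx σ hσ h1
    by_contra h2
    exact hx ((hO x).2 ⟨σ, hσ, h2, h1⟩)
  let st : Setoid (Fin 4) :=
    { r := fun x y => ∃ σ ∈ P, (σ : Equiv.Perm (Fin 4)) x = y
      iseqv :=
        { refl := fun x => ⟨1, one_mem _, rfl⟩
          symm := by
            rintro x y ⟨σ, hσ, rfl⟩
            exact ⟨σ⁻¹, inv_mem hσ, Equiv.symm_apply_apply _ x⟩
          trans := by
            rintro x y z ⟨σ, hσ, rfl⟩ ⟨τ, hτ, rfl⟩
            exact ⟨τ * σ, mul_mem hτ hσ, rfl⟩ } }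
  let ρ : Fin 4 → Fin 4 := fun x => (Quotient.mk st x).out
  have hρ1 : ∀ x, ∃ σ ∈ P, (σ : Equiv.Perm (Fin 4)) (ρ x) = x := by
    intro x
    exact Quotient.exact (Quotient.out_eq (Quotient.mk st x))
  have hρ2 : ∀ σ ∈ P, ∀ x, ρ ((σ : Equiv.Perm (Fin 4)) x) = ρ x := by
    intro σ hσ x
    have h0 : st.r x ((σ : Equiv.Perm (Fin 4)) x) := ⟨σ, hσ, rfl⟩
    have h1 : Quotient.mk st ((σ : Equiv.Perm (Fin 4)) x) = Quotient.mk st x :=
      (Quotient.sound (s := st) h0).symm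
    show (Quotient.mk st _).out = _
    rw [h1]
  choose τ hτP hτ using hρ1
  have hρρ : ∀ x, ρ (ρ x) = ρ x := by
    intro x
    have h1 := hρ2 (τ x) (hτP x) (ρ x)
    rw [hτ x] at h1
    exact h1.symm
  have hρO : ∀ x, x ∉ O → ρ x ∉ O := by
    intro x hx h
    apply hx
    rw [← hτ x]
    exact hOinv _ (hτP x) _ h
  let J : Type := {z : Fin 4 // z ∉ O ∧ ρ z = z}
  let S : Subgroup B.G := P.map φ
  let C : Set B.M := ι '' O
  -- the map back
  let β : Ex B.G B.M J → Fin 4 := fun w =>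
    if h : ∃ x, w = Ex.old J (ι x) then h.choose else
      if h : ∃ q : alternatingGroup (Fin 4) × J, w = Ex.new B.M (φ q.1) q.2 then
        (h.choose.1 : Equiv.Perm (Fin 4)) h.choose.2.1 else 0
  have β_old : ∀ x, β (Ex.old J (ι x)) = x := by
    intro x
    have h : ∃ y, (Ex.old J (ι x) : Ex B.G B.M J) = Ex.old J (ι y) := ⟨x, rfl⟩
    have h1 : β (Ex.old J (ι x)) = h.choose := dif_pos h
    rw [h1]
    exact (hι (Ex.old_inj h.choose_spec)).symm
  have β_new : ∀ (σ : alternatingGroup (Fin 4)) (j : J),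
      β (Ex.new B.M (φ σ) j) = (σ : Equiv.Perm (Fin 4)) j.1 := by
    intro σ j
    have h : ¬ ∃ y, (Ex.new B.M (φ σ) j : Ex B.G B.M J) = Ex.old J (ι y) := by
      rintro ⟨y, hy⟩
      exact Ex.old_ne_new hy.symm
    have h' : ∃ q : alternatingGroup (Fin 4) × J,
      (Ex.new B.M (φ σ) j : Ex B.G B.M J) = Ex.new B.M (φ q.1) q.2 := ⟨(σ, j), rfl⟩
    have h1 : β (Ex.new B.M (φ σ) j) =
        (h'.choose.1 : Equiv.Perm (Fin 4)) h'.choose.2.1 := by
      show dite _ _ _ = _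
      rw [dif_neg h, dif_pos h']
    have h2 := Ex.new_inj h'.choose_spec
    rw [h1, ← hφinj h2.1, ← h2.2]
  let D : Str (Unit ⊕ Unit) ar4 (Ex B.G B.M J) := r₀.pull β
  have hZ : ∀ w, w ∈ Zs S C J ↔ (∃ x ∈ O, w = Ex.old J (ι x)) ∨
      ∃ σ ∈ P, ∃ j, w = Ex.new B.M (φ σ) j := by
    intro w
    constructor
    · rintro (⟨_, ⟨x, hx, rfl⟩, h⟩ | ⟨_, ⟨σ, hσ, rfl⟩, j, h⟩)
      · exact Or.inl ⟨x, hx, h⟩
      · exact Or.inr ⟨σ, hσ, j, h⟩
    · rintro (⟨x, hx, h⟩ | ⟨σ, hσ, j, h⟩)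
      · exact Or.inl ⟨ι x, ⟨x, hx, rfl⟩, h⟩
      · exact Or.inr ⟨φ σ, ⟨σ, hσ, rfl⟩, j, h⟩
  have hZinj : ∀ w ∈ Zs S C J, ∀ w' ∈ Zs S C J, β w = β w' → w = w' := by
    intro w hw w' hw' h
    rcases (hZ w).1 hw with ⟨x, hx, rfl⟩ | ⟨σ, hσ, j, rfl⟩
    · rcases (hZ w').1 hw' with ⟨y, hy, rfl⟩ | ⟨σ', hσ', j', rfl⟩
      · rw [β_old, β_old] at h
        rw [h]
      · exfalso
        rw [β_old, β_new] at h
        apply j'.2.1
        have h1 := hOinv σ'⁻¹ (inv_mem hσ') x hx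
        rw [h] at h1
        have h2 : ((σ'⁻¹ : alternatingGroup (Fin 4)) : Equiv.Perm (Fin 4))
          ((σ' : Equiv.Perm (Fin 4)) j'.1) = j'.1 := Equiv.symm_apply_apply _ _
        rw [h2] at h1
        exact h1
    · rcases (hZ w').1 hw' with ⟨y, hy, rfl⟩ | ⟨σ', hσ', j', rfl⟩
      · exfalso
        rw [β_old, β_new] at h
        apply j.2.1
        have h1 := hOinv σ⁻¹ (inv_mem hσ) y hy
        rw [← h] at h1
        have h2 : ((σ⁻¹ : alternatingGroup (Fin 4)) : Equiv.Perm (Fin 4))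
          ((σ : Equiv.Perm (Fin 4)) j.1) = j.1 := Equiv.symm_apply_apply _ _
        rw [h2] at h1
        exact h1
      · rw [β_new, β_new] at h
        have h1 : j = j' := by
          apply Subtype.ext
          rw [← j.2.2, ← j'.2.2, ← hρ2 σ hσ j.1, h, hρ2 σ' hσ']
        subst h1
        have h2 : σ'⁻¹ * σ = 1 := by
          apply hfree j.1 j.2.1 _ (mul_mem (inv_mem hσ') hσ)
          show ((σ' : Equiv.Perm (Fin 4))⁻¹) ((σ : Equiv.Perm (Fin 4)) j.1) = j.1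
          rw [h]
          exact Equiv.symm_apply_apply _ _
        rw [inv_mul_eq_one] at h2
        rw [h2]
  have hZequiv : ∀ σ ∈ P, ∀ w ∈ Zs S C J, β (φ σ • w) = (σ : Equiv.Perm (Fin 4)) (β w) := by
    intro σ hσ w hw
    rcases (hZ w).1 hw with ⟨x, hx, rfl⟩ | ⟨σ', hσ', j, rfl⟩
    · rw [Ex.smul_old, hφ, β_old, β_old]
    · rw [Ex.smul_new, ← map_mul, β_new, β_new]
      rfl
  have hadm : Adm C4 B.r S C D := by
    refine ⟨?_, ?_, ?_, ?_, ?_, ?_⟩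
    · have h1 : (S : Set B.G).Finite := by
        have h2 : (S : Set B.G) = φ '' (P : Set (alternatingGroup (Fin 4))) := rfl
        rw [h2]
        exact (Set.toFinite _).image _
      exact h1.to_subtype
    · exact (Set.toFinite O).image _
    · rintro _ ⟨σ, hσ, rfl⟩ _ ⟨x, hx, rfl⟩
      exact ⟨_, hOinv σ hσ x hx, (hφ σ x).symm⟩
    · have h1 : D.pull (Subtype.val : Zs S C J → Ex B.G B.M J) =
          r₀.pull (fun z : Zs S C J => β z.1) := rfl
      rw [h1]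
      apply C4.pull _ _ _ _ _ hK
      rintro ⟨w, hw⟩ ⟨w', hw'⟩ hww
      exact Subtype.ext (hZinj w hw w' hw' hww)
    · rintro _ ⟨σ, hσ, rfl⟩ i v hv
      have h1 : (fun l => β (φ σ • v l)) = fun l => (σ : Equiv.Perm (Fin 4)) (β (v l)) := by
        funext l
        exact hZequiv σ hσ _ (hv l)
      show r₀ i (fun l => β (φ σ • v l)) ↔ r₀ i (fun l => β (v l))
      rw [h1]
      exact iff_of_eq (congrFun (congrFun hσ i) (fun l => β (v l)))
    · intro i v hv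
      rcases i with i | i
      · change Fin 4 → B.M at v
        have h01 : v 0 = v 1 := by
          obtain ⟨x, hx, hx2⟩ := hv (0 : Fin 4)
          obtain ⟨y, hy, hy2⟩ := hv (1 : Fin 4)
          rw [← hx2, ← hy2, hO1 x hx y hy]
        refine iff_of_false ?_ ?_
        · intro h1
          have h2 := hr4.1.1 _ h1
          have h3 : (0 : Fin 4) = 1 := by
            apply h2
            show β (Ex.old J (v 0)) = β (Ex.old J (v 1))
            rw [h01]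
          exact absurd h3 (by decide)
        · intro h1
          have h2 := hB4.1.1 _ h1
          exact absurd (h2 h01) (by decide)
      · change Fin 2 → B.M at v
        have h01 : v 0 = v 1 := by
          obtain ⟨x, hx, hx2⟩ := hv (0 : Fin 2)
          obtain ⟨y, hy, hy2⟩ := hv (1 : Fin 2)
          rw [← hx2, ← hy2, hO1 x hx y hy]
        refine iff_of_false ?_ ?_
        · intro h1
          have h2 : r₀ (Sum.inr ()) (fun l : Fin 2 => β (Ex.old J (v l))) := h1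
          rw [evE r₀ (fun l : Fin 2 => β (Ex.old J (v l)))] at h2
          simp only [h01] at h2
          exact hr4.2.1 _ h2
        · intro h1
          have h2 : B.r (Sum.inr ()) v := h1
          rw [evE B.r v, h01] at h2
          exact hB4.2.1 _ h2
  haveI : Finite J := by
    show Finite {z : Fin 4 // z ∉ O ∧ ρ z = z}
    infer_instance
  obtain ⟨r', hr1, hr2, hr3, hr'⟩ := hE B.G B.M B.r B.good J S C D hadm
  have hgood := exg 4 _ _ C4 B.G B.M J B.r r' B.good hr1 hr2 hr3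
  haveI : Countable (Ex B.G B.M J) := inferInstanceAs (Countable (B.M ⊕ (B.G × J)))
  haveI : Infinite (Ex B.G B.M J) := inferInstanceAs (Infinite (B.M ⊕ (B.G × J)))
  let W : Stg 4 C4 := { G := B.G, M := Ex B.G B.M J, r := r', good := hgood }
  let f : Ext B W :=
    { φ := MonoidHom.id B.G
      ι := Ex.old J
      inj := fun x y h => Ex.old_inj h
      eqv := fun g x => (Ex.smul_old g x).symm
      str := hr3 }
  -- the tuple
  let a : Fin 4 → Ex B.G B.M J := fun x =>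
    if h : x ∈ O then Ex.old J (ι x) else Ex.new B.M (φ (τ x)) ⟨ρ x, hρO x h, hρρ x⟩
  have a_old : ∀ x, x ∈ O → a x = Ex.old J (ι x) := fun x h => dif_pos h
  have a_new : ∀ x (h : x ∉ O), a x = Ex.new B.M (φ (τ x)) ⟨ρ x, hρO x h, hρρ x⟩ :=
    fun x h => dif_neg h
  have haZ : ∀ x, a x ∈ Zs S C J := by
    intro x
    rw [hZ]
    by_cases h : x ∈ O
    · exact Or.inl ⟨x, h, a_old x h⟩
    · exact Or.inr ⟨τ x, hτP x, _, a_new x h⟩
  have haβ : ∀ x, β (a x) = x := by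
    intro x
    by_cases h : x ∈ O
    · rw [a_old x h, β_old]
    · rw [a_new x h, β_new]
      exact hτ x
  have hatyp : r'.pull a = r₀ := by
    funext i v
    have h1 := hr' i (fun l => a (v l)) (fun l => haZ (v l))
    have h2 : D i (fun l => a (v l)) = r₀ i v := by
      show r₀ i (fun l => β (a (v l))) = r₀ i v
      simp only [haβ]
    exact propext (h1.trans (iff_of_eq h2))
  refine ⟨W, f, a, ⟨?_, ?_⟩, hatyp⟩
  · intro x y hxy
    have h1 : β (a x) = β (a y) := congrArg β hxy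
    rw [haβ, haβ] at h1
    exact h1
  · intro π hπ
    have hπ' : r₀.pull (fun i => π i) = r₀ := by
      have h1 : r'.pull (fun i => a (π i)) = (r'.pull a).pull (fun i => π i) := rfl
      have hπ2 : r'.pull (fun i => a (π i)) = r'.pull a := hπ
      rw [h1, hatyp] at hπ2
      exact hπ2
    obtain ⟨σ, hσ, hσπ⟩ := PG_all hK hπ'
    refine ⟨φ σ, ?_⟩
    intro x
    show (φ σ • (a x) : Ex B.G B.M J) = a (π x)
    apply hZinj
    · -- invariance of Zs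
      rcases (hZ _).1 (haZ x) with ⟨y, hy, h1⟩ | ⟨σ', hσ', j, h1⟩
      · rw [h1, Ex.smul_old, hφ, hZ]
        exact Or.inl ⟨_, hOinv σ hσ y hy, rfl⟩
      · rw [h1, Ex.smul_new, ← map_mul, hZ]
        exact Or.inr ⟨_, mul_mem hσ hσ', j, rfl⟩
    · exact haZ _
    · rw [hZequiv σ hσ _ (haZ x), haβ, haβ, hσπ]

theorem hf4 : S_HF4 := by
  intro exg hE A₀ φ₀ ι₀ hι₀ hφ₀ hne B hB r₀ hK
  obtain ⟨e⟩ := hB
  have hι : Injective (fun i => e.ι (ι₀ i)) := fun i j h => hι₀ (e.inj h)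
  have hφ : ∀ (g : alternatingGroup (Fin 4)) i, (e.φ.comp φ₀) g • e.ι (ι₀ i) =
      e.ι (ι₀ ((g : Equiv.Perm (Fin 4)) i)) := by
    intro g i
    show e.φ (φ₀ g) • e.ι (ι₀ i) = _
    rw [← e.eqv, hφ₀]
  have hnoe : ∀ i j, ¬ B.r (Sum.inr ()) (![e.ι (ι₀ i), e.ι (ι₀ j)] : Fin 2 → B.M) := by
    intro i j h
    apply hne i j
    have h1 := pullE B.r e.ι (ι₀ i) (ι₀ j)
    rw [e.str] at h1
    have h2 : A₀.r (Sum.inr ()) (![ι₀ i, ι₀ j] : Fin 2 → A₀.M) := by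
      rw [h1]; exact h
    exact h2
  by_cases hO1 : ∀ x ∈ {x : Fin 4 | ∃ σ ∈ PG r₀, σ ≠ 1 ∧ (σ : Equiv.Perm (Fin 4)) x = x},
      ∀ y ∈ {x : Fin 4 | ∃ σ ∈ PG r₀, σ ≠ 1 ∧ (σ : Equiv.Perm (Fin 4)) x = x}, x = y
  · exact hf4_case2 exg hE B (e.φ.comp φ₀) (fun i => e.ι (ι₀ i)) hι hφ r₀ hK _ (fun x => Iff.rfl) hO1
  · push Not at hO1
    obtain ⟨x, ⟨σ, hσ, hσ1, hσx⟩, y, ⟨τ, hτ, hτ1, hτy⟩, hxy⟩ := hO1
    have hr4 := (k_iff r₀).1 hK
    have hinv : ∀ σ ∈ PG r₀, ∀ u v, r₀ (Sum.inr ()) (![(σ : Equiv.Perm (Fin 4)) u,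
        (σ : Equiv.Perm (Fin 4)) v] : Fin 2 → Fin 4) ↔
        r₀ (Sum.inr ()) (![u, v] : Fin 2 → Fin 4) := by
      intro σ hσ u v
      have h1 := pullE r₀ (fun i => (σ : Equiv.Perm (Fin 4)) i) u v
      rw [mem_PG.1 hσ] at h1
      exact (iff_of_eq h1).symm
    have hno : ∀ u v, ¬ r₀ (Sum.inr ()) (![u, v] : Fin 2 → Fin 4) :=
      noedge2 hr4.2 σ.2 (fun h => hσ1 (Subtype.ext h)) hσx (hinv σ hσ) τ.2
        (fun h => hτ1 (Subtype.ext h)) hτy (hinv τ hτ) hxy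
    obtain ⟨a, h1, h2⟩ := hf4_case1 B (e.φ.comp φ₀) (fun i => e.ι (ι₀ i)) hι hφ hnoe r₀ hK hno
    exact ⟨B, Ext.idm B, a, h1, h2⟩

end Q272.SK
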