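import Pool.Agent.Q32.SK.Stm

/-!
# Project SK, job MAI: the machine
-/

set_option autoImplicit false

namespace Q272.SK

open Function Q32.SK

section

variable {k : ℕ} {I : Type} {ar : I → ℕ} {𝒞 : Cls I ar}

theorem pull_comp {A B : Stg k 𝒞} (e : Ext A B) {X : Type} (c : X → A.M) :
    B.r.pull (fun x => e.ι (c x)) = A.r.pull c := by
  have h : B.r.pull (fun x => e.ι (c x)) = (B.r.pull e.ι).pull c := rfl
  rw [h, e.str]

theorem full_ext {A B : Stg k 𝒞} (e : Ext A B) {a : Fin k → A.M} (h : Full A.G A.M A.r a) :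
    Full B.G B.M B.r (fun i => e.ι (a i)) := by
  refine ⟨fun i j hij => h.1 (e.inj hij), ?_⟩
  intro π hπ
  have h1 : A.r.pull (fun i => a (π i)) = A.r.pull a := by
    rw [← pull_comp e a, ← hπ]
    exact (pull_comp e (fun i => a (π i))).symm
  obtain ⟨g, hg⟩ := h.2 π h1
  exact ⟨e.φ g, fun i => by rw [← e.eqv, hg]⟩

/-- the pair task -/
theorem perfA (hP : ∀ (A : Stg k 𝒞) (b a : Fin k → A.M), Injective b → A.r.pull b = A.r.pull a →
    Full A.G A.M A.r a →
    ∃ (B : Stg k 𝒞) (e : Ext A B) (g : B.G), ∀ i, g • e.ι (b i) = e.ι (a i))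
    {A₀ : Stg k 𝒞} (hF : HFull A₀) (B : Stg k 𝒞) (hB : Nonempty (Ext A₀ B))
    (b1 b2 : Fin k → B.M) (h1 : Injective b1) (h2 : Injective b2)
    (h : B.r.pull b1 = B.r.pull b2) :
    ∃ (C : Stg k 𝒞) (f : Ext B C) (g : C.G), ∀ i, g • f.ι (b1 i) = f.ι (b2 i) := by
  obtain ⟨C, f, a, hfull, ha⟩ := hF B hB (B.r.pull b1) (𝒞.pull _ _ b1 B.r h1 B.good.cls)
  obtain ⟨D1, f1, g1, hg1⟩ := hP C (fun i => f.ι (b1 i)) a (fun i j hij => h1 (f.inj hij))
    (by rw [pull_comp f b1, ha]) hfull
  obtain ⟨D2, f2, g2, hg2⟩ := hP D1 (fun i => f1.ι (f.ι (b2 i))) (fun i => f1.ι (a i))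
    (fun i j hij => h2 (f.inj (f1.inj hij)))
    (by rw [pull_comp f1 a, pull_comp f1 (fun i => f.ι (b2 i)), pull_comp f b2, ha, h])
    (full_ext f1 hfull)
  refine ⟨D2, (f.comp f1).comp f2, g2⁻¹ * f2.φ g1, fun i => ?_⟩
  show (g2⁻¹ * f2.φ g1) • f2.ι (f1.ι (f.ι (b1 i))) = f2.ι (f1.ι (f.ι (b2 i)))
  rw [mul_smul, ← f2.eqv, hg1, inv_smul_eq_iff, hg2]

/-- the point task -/
theorem perfB (exg : S_EXG) (hE : EAP k 𝒞) (B : Stg k 𝒞) (n : ℕ) (c : Fin n → B.M)
    (hc : Injective c) (D : Str I ar (Option (Fin n))) (hK : 𝒞.K _ D)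
    (hD : D.pull some = B.r.pull c) :
    ∃ (C : Stg k 𝒞) (f : Ext B C) (y : C.M), (∀ i, y ≠ f.ι (c i)) ∧
      C.r.pull (fun o : Option (Fin n) => o.elim y (fun i => f.ι (c i))) = D := by
  classical
  let back : Ex B.G B.M Unit → Option (Fin n) := fun w =>
    if h : ∃ i, w = Ex.old Unit (c i) then some h.choose else none
  have back_old : ∀ i, back (Ex.old Unit (c i)) = some i := by
    intro i
    have h : ∃ j, (Ex.old Unit (c i) : Ex B.G B.M Unit) = Ex.old Unit (c j) := ⟨i, rfl⟩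
    have h1 : back (Ex.old Unit (c i)) = some h.choose := dif_pos h
    rw [h1]
    congr 1
    exact (hc (Ex.old_inj h.choose_spec)).symm
  have back_new : ∀ g j, back (Ex.new B.M g j) = none := by
    intro g j
    apply dif_neg
    rintro ⟨i, hi⟩
    exact Ex.old_ne_new hi.symm
  let D' : Str I ar (Ex B.G B.M Unit) := D.pull back
  have hZ : ∀ w, w ∈ Zs (⊥ : Subgroup B.G) (Set.range c) Unit ↔
      (∃ i, w = Ex.old Unit (c i)) ∨ w = Ex.new B.M 1 () := by
    intro w
    unfold Zs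
    constructor
    · rintro (⟨x, ⟨i, rfl⟩, h⟩ | ⟨s, hs, j, h⟩)
      · exact Or.inl ⟨i, h⟩
      · rw [Subgroup.mem_bot] at hs
        subst hs
        exact Or.inr h
    · rintro (⟨i, h⟩ | h)
      · exact Or.inl ⟨c i, ⟨i, rfl⟩, h⟩
      · exact Or.inr ⟨1, Subgroup.mem_bot.2 rfl, (), h⟩
  have hadm : Adm 𝒞 B.r (⊥ : Subgroup B.G) (Set.range c) D' := by
    refine ⟨inferInstance, Set.finite_range c, ?_, ?_, ?_, ?_⟩
    · intro s hs x hx
      rw [Subgroup.mem_bot] at hs
      rw [hs, one_smul]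
      exact hx
    · have h1 : D'.pull (Subtype.val : Zs (⊥ : Subgroup B.G) (Set.range c) Unit → Ex B.G B.M Unit) =
          D.pull (fun z : Zs (⊥ : Subgroup B.G) (Set.range c) Unit => back z.1) := rfl
      rw [h1]
      apply 𝒞.pull _ _ _ _ _ hK
      rintro ⟨w, hw⟩ ⟨w', hw'⟩ hww
      apply Subtype.ext
      simp only at hww
      show w = w'
      rcases (hZ w).1 hw with ⟨i, rfl⟩ | rfl
      · rcases (hZ w').1 hw' with ⟨j, rfl⟩ | rfl
        · rw [back_old, back_old] at hww
          rw [Option.some_inj.1 hww]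
        · rw [back_old, back_new] at hww
          exact absurd hww (by simp)
      · rcases (hZ w').1 hw' with ⟨j, rfl⟩ | rfl
        · rw [back_old, back_new] at hww
          exact absurd hww (by simp)
        · rfl
    · intro s hs i v hv
      rw [Subgroup.mem_bot] at hs
      subst hs
      simp only [one_smul]
    · intro i v hv
      choose j hj using hv
      have h1 : (fun l => c (j l)) = v := funext hj
      rw [← h1]
      have h2 : D' i (fun l => Ex.old Unit (c (j l))) = D i (fun l => some (j l)) := by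
        show D i (fun l => back (Ex.old Unit (c (j l)))) = _
        simp only [back_old]
      rw [h2]
      exact iff_of_eq (congrFun (congrFun hD i) j)
  obtain ⟨r', hr1, hr2, hr3, hr4⟩ := hE B.G B.M B.r B.good Unit ⊥ (Set.range c) D' hadm
  have hgood := exg k I ar 𝒞 B.G B.M Unit B.r r' B.good hr1 hr2 hr3
  haveI : Countable (Ex B.G B.M Unit) := inferInstanceAs (Countable (B.M ⊕ (B.G × Unit)))
  haveI : Infinite (Ex B.G B.M Unit) := inferInstanceAs (Infinite (B.M ⊕ (B.G × Unit)))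
  let C : Stg k 𝒞 := { G := B.G, M := Ex B.G B.M Unit, r := r', good := hgood }
  let f : Ext B C :=
    { φ := MonoidHom.id B.G
      ι := Ex.old Unit
      inj := fun x y h => Ex.old_inj h
      eqv := fun g x => (Ex.smul_old g x).symm
      str := hr3 }
  refine ⟨C, f, Ex.new B.M 1 (), ?_, ?_⟩
  · intro i h
    exact Ex.old_ne_new h.symm
  · funext i v
    have h1 : ∀ l, (Option.elim (v l) (Ex.new B.M 1 ()) (fun i => Ex.old Unit (c i)) :
        Ex B.G B.M Unit) ∈ Zs (⊥ : Subgroup B.G) (Set.range c) Unit := by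
      intro l
      rw [hZ]
      cases v l with
      | none => right; rfl
      | some j => left; exact ⟨j, rfl⟩
    have h2 := hr4 i (fun l => Option.elim (v l) (Ex.new B.M 1 ()) (fun i => Ex.old Unit (c i))) h1
    have h3 : (fun l => back (Option.elim (v l) (Ex.new B.M 1 ()) (fun i => Ex.old Unit (c i)))) =
        v := by
      funext l
      cases v l with
      | none => exact back_new 1 ()
      | some j => exact back_old j
    have h4 : D' i (fun l => Option.elim (v l) (Ex.new B.M 1 ()) (fun i => Ex.old Unit (c i))) =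
        D i v := by
      show D i (fun l => back _) = D i v
      rw [h3]
    exact propext (h2.trans (iff_of_eq h4))

/-- objects: stages over `A₀` -/
abbrev OB (A₀ : Stg k 𝒞) : Type 1 := {A : Stg k 𝒞 // Nonempty (Ext A₀ A)}

/-- tasks (a) -/
def TA (A : Stg k 𝒞) : Type :=
  {q : (Fin k → A.M) × (Fin k → A.M) // Injective q.1 ∧ Injective q.2 ∧
    A.r.pull q.1 = A.r.pull q.2}

/-- tasks (b) -/
def TB (A : Stg k 𝒞) : Type :=
  (n : ℕ) × {q : (Fin n → A.M) × {D : Str I ar (Option (Fin n)) // 𝒞.K (Option (Fin n)) D} //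
    Injective q.1 ∧ q.2.1.pull some = A.r.pull q.1}

theorem cntOpt (n : ℕ) : Countable {D : Str I ar (Option (Fin n)) // 𝒞.K (Option (Fin n)) D} := by
  have h := 𝒞.cnt (n + 1)
  let eq : Option (Fin n) ≃ Fin (n + 1) := (finSuccEquiv n).symm
  haveI : Countable {r : Str I ar (Fin (n + 1)) // 𝒞.K (Fin (n + 1)) r} := h.to_subtype
  apply Injective.countable (β := {r : Str I ar (Fin (n + 1)) // 𝒞.K (Fin (n + 1)) r})
    (f := fun D => ⟨D.1.pull eq.symm, 𝒞.pull _ _ _ _ eq.symm.injective D.2⟩)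
  rintro ⟨D, hD⟩ ⟨D2, hD2⟩ h
  apply Subtype.ext
  show D = D2
  have h1 : D.pull eq.symm = D2.pull eq.symm := congrArg Subtype.val h
  have h2 : (D.pull eq.symm).pull eq = (D2.pull eq.symm).pull eq := by rw [h1]
  have h3 : ∀ D : Str I ar (Option (Fin n)), (D.pull eq.symm).pull eq = D := by
    intro D
    rw [Str.pull_pull]
    have : (fun x => eq.symm (eq x)) = fun x => x := by funext x; simp
    rw [this]
    rfl
  rw [h3, h3] at h2
  exact h2

instance cntTA (A : Stg k 𝒞) : Countable (TA A) := by unfold TA; infer_instance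

instance cntTB (A : Stg k 𝒞) : Countable (TB A) := by
  unfold TB
  have : ∀ n, Countable {D : Str I ar (Option (Fin n)) // 𝒞.K (Option (Fin n)) D} := cntOpt
  infer_instance

/-- a task is done -/
def Dn {A B : Stg k 𝒞} (e : Ext A B) : TA A ⊕ TB A → Prop
  | Sum.inl q => ∃ g : B.G, ∀ i, g • e.ι (q.1.1 i) = e.ι (q.1.2 i)
  | Sum.inr ⟨_, q⟩ => ∃ y : B.M, (∀ i, y ≠ e.ι (q.1.1 i)) ∧
      B.r.pull (fun o => o.elim y (fun i => e.ι (q.1.1 i))) = q.1.2.1

theorem perfAB (exg : S_EXG) (hE : EAP k 𝒞)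
    (hP : ∀ (A : Stg k 𝒞) (b a : Fin k → A.M), Injective b → A.r.pull b = A.r.pull a →
    Full A.G A.M A.r a →
    ∃ (B : Stg k 𝒞) (e : Ext A B) (g : B.G), ∀ i, g • e.ι (b i) = e.ι (a i))
    {A₀ : Stg k 𝒞} (hF : HFull A₀) {A B : Stg k 𝒞} (hB : Nonempty (Ext A₀ B)) (e : Ext A B)
    (τ : TA A ⊕ TB A) : ∃ (C : Stg k 𝒞) (f : Ext B C), Dn (e.comp f) τ := by
  rcases τ with ⟨⟨b1, b2⟩, h1, h2, h3⟩ | ⟨n, ⟨c, D, hD⟩, h1, h2⟩
  · obtain ⟨C, f, g, hg⟩ := perfA hP hF B hB (fun i => e.ι (b1 i)) (fun i => e.ι (b2 i))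
      (fun i j hij => h1 (e.inj hij)) (fun i j hij => h2 (e.inj hij))
      (by rw [pull_comp e b1, pull_comp e b2]; exact h3)
    exact ⟨C, f, g, hg⟩
  · obtain ⟨C, f, y, hy1, hy2⟩ := perfB exg hE B n (fun i => e.ι (c i))
      (fun i j hij => h1 (e.inj hij)) D hD (by rw [pull_comp e c]; exact h2)
    exact ⟨C, f, y, hy1, hy2⟩

end

theorem mai : S_MAI := by
  intro book lim exg k I ar 𝒞 hE hP A₀ hF
  obtain ⟨A, e, hA0, -, hdone⟩ := book (OB A₀) (fun A B => Ext A.1 B.1) (fun A => Ext.idm A.1)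
    (fun e f => e.comp f) (fun A => TA A.1 ⊕ TB A.1) (fun A => inferInstance)
    (fun {A B} e τ => Dn e τ) (fun {A B} e => True) (fun A => trivial)
    (by
      intro A B e τ
      obtain ⟨C, f, hf⟩ := perfAB exg hE hP hF B.2 e τ
      refine ⟨⟨C, ?_⟩, f, trivial, hf⟩
      obtain ⟨e0⟩ := B.2
      exact ⟨e0.comp f⟩) ⟨A₀, ⟨Ext.idm A₀⟩⟩
  obtain ⟨W, E, hc1, hc2, hsM, hsG⟩ := lim k I ar 𝒞 (fun n => (A n).1) e
  have hι : ∀ (n m : ℕ) (x : (A n).1.M), (E (n + m)).ι ((cto (Ob := OB A₀) (Hom := fun A B => Ext A.1 B.1) (fun A => Ext.idm A.1)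
      (fun e f => e.comp f) A e n m).ι x) = (E n).ι x := by
    intro n m x
    induction m with
    | zero => rfl
    | succ m ih =>
      rw [← ih]
      exact hc1 (n + m) _
  have hmono : Monotone (fun n => Set.range (E n).ι) := by
    apply monotone_nat_of_le_succ
    intro n
    rintro _ ⟨x, rfl⟩
    exact ⟨(e n).ι x, hc1 n x⟩
  have hlift : ∀ (n : ℕ) (a : Fin n → W.M), ∃ (N : ℕ) (a' : Fin n → (A N).1.M),
      ∀ i, (E N).ι (a' i) = a i := by
    intro n a
    choose f y hy using fun i => hsM (a i)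
    let N := Finset.univ.sup f
    have h1 : ∀ i, a i ∈ Set.range (E N).ι := by
      intro i
      exact hmono (Finset.le_sup (Finset.mem_univ i)) ⟨y i, hy i⟩
    choose a' ha' using h1
    exact ⟨N, a', ha'⟩
  refine ⟨W, ?_, ?_, ?_⟩
  · obtain ⟨e0⟩ := (A 0).2
    exact ⟨e0.comp (E 0)⟩
  · -- transitivity
    intro a b ha hb hab
    -- lift both tuples to one stage
    obtain ⟨N, a', b', ha', hb'⟩ : ∃ (N : ℕ) (a' b' : Fin k → (A N).1.M),
        (∀ i, (E N).ι (a' i) = a i) ∧ ∀ i, (E N).ι (b' i) = b i := by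
      obtain ⟨N1, a1, ha1⟩ := hlift k a
      obtain ⟨N2, b1, hb1⟩ := hlift k b
      have h1 : ∀ i, a i ∈ Set.range (E (max N1 N2)).ι :=
        fun i => hmono (le_max_left _ _) ⟨a1 i, ha1 i⟩
      have h2 : ∀ i, b i ∈ Set.range (E (max N1 N2)).ι :=
        fun i => hmono (le_max_right _ _) ⟨b1 i, hb1 i⟩
      choose a' ha' using h1
      choose b' hb' using h2
      exact ⟨_, a', b', ha', hb'⟩
    have hia : Injective a' := by
      intro i j hij
      apply ha
      rw [← ha' i, ← ha' j, hij]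
    have hib : Injective b' := by
      intro i j hij
      apply hb
      rw [← hb' i, ← hb' j, hij]
    have hty : (A N).1.r.pull a' = (A N).1.r.pull b' := by
      rw [← pull_comp (E N) a', ← pull_comp (E N) b']
      have h1 : (fun i => (E N).ι (a' i)) = a := funext ha'
      have h2 : (fun i => (E N).ι (b' i)) = b := funext hb'
      rw [h1, h2, hab]
    obtain ⟨m, g, hg⟩ := hdone N (Sum.inl ⟨(a', b'), hia, hib, hty⟩)
    refine ⟨(E (N + m)).φ g, fun i => ?_⟩
    rw [← ha' i, ← hb' i, ← hι N m (a' i), ← hι N m (b' i), ← (E (N + m)).eqv]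
    congr 1
    exact hg i
  · -- point extensions
    intro C hC D hK hD
    haveI : Finite C := hC.to_subtype
    obtain ⟨n, ⟨c0⟩⟩ := Finite.exists_equiv_fin C
    let c : Fin n → W.M := fun i => (c0.symm i : W.M)
    have hcinj : Injective c := fun i j hij => c0.symm.injective (Subtype.ext hij)
    obtain ⟨N, c', hc'⟩ := hlift n c
    have hic : Injective c' := by
      intro i j hij
      apply hcinj
      rw [← hc' i, ← hc' j, hij]
    let D' : Str I ar (Option (Fin n)) := D.pull (Option.map c0.symm)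
    have hK' : 𝒞.K (Option (Fin n)) D' :=
      𝒞.pull _ _ _ _ (Option.map_injective c0.symm.injective) hK
    have hD' : D'.pull some = (A N).1.r.pull c' := by
      rw [← pull_comp (E N) c']
      have h1 : (fun i => (E N).ι (c' i)) = c := funext hc'
      rw [h1]
      have h2 : D'.pull some = (D.pull some).pull c0.symm := rfl
      rw [h2, hD]
      rfl
    obtain ⟨m, y, hy1, hy2⟩ := hdone N (Sum.inr ⟨n, (c', ⟨D', hK'⟩), hic, hD'⟩)
    simp only at hy1 hy2
    refine ⟨(E (N + m)).ι y, ?_, ?_⟩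
    · intro hyC
      apply hy1 (c0 ⟨_, hyC⟩)
      apply (E (N + m)).inj
      rw [hι, hc']
      simp [c]
    · funext i v
      have h1 := congrFun (congrFun hy2 i) (fun l => Option.map c0 (v l))
      have h2 : D' i (fun l => Option.map c0 (v l)) = D i v := by
        show D i (fun l => Option.map c0.symm (Option.map c0 (v l))) = D i v
        congr 1
        funext l
        cases v l with
        | none => rfl
        | some x => simp
      rw [← h2, ← h1]
      have h3 := congrFun (congrFun (E (N + m)).str i) (fun l => Option.elim (Option.map c0 (v l)) y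
        (fun j => (cto (Ob := OB A₀) (Hom := fun A B => Ext A.1 B.1) (fun A => Ext.idm A.1)
          (fun e f => e.comp f) A e N m).ι (c' j)))
      refine Eq.trans ?_ h3
      show W.r i (fun l => oval C _ (v l)) = W.r i (fun l => (E (N + m)).ι _)
      congr 1
      funext l
      cases v l with
      | none => rfl
      | some x =>
        show (x : W.M) = (E (N + m)).ι ((cto (Ob := OB A₀) (Hom := fun A B => Ext A.1 B.1) (fun A => Ext.idm A.1)
          (fun e f => e.comp f) A e N m).ι (c' (c0 x)))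
        rw [hι, hc']
        simp [c]

end Q272.SK
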